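import Pool.Agent.MP_0f71ae_nt.Sp.Def
import Pool.Agent.MP_0f71ae_nt.Sz.SB1

/-!
# CH2: exponential moments, errors proportional to the logarithms
-/

set_option autoImplicit false

namespace Pool.Agent.MP_0f71ae_nt.Sp

open Finset Pool.Agent.MP_0f71ae_nt.Reg Pool.Agent.MP_0f71ae_nt.Cnt Pool.Agent.MP_0f71ae_nt.Sz

open Classical in
theorem chernoff2 {η ρ τ W : ℝ} (hη : 0 ≤ η) (hρ : 0 ≤ ρ) (hτ : 0 ≤ τ) {L N : ℕ} (hN : 1 ≤ N)
    (hB : Blk η ρ τ W N)
    (P : Fin L → ℕ × ℕ × ℕ) (hP : IsPart N L P) (S : Finset (Fin L)) (w θ : ℝ) (hw : 0 < w)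
    (hθ : 0 ≤ θ) (hwW : w * Real.exp θ ≤ W) (m : ℕ) (t : ℝ) :
    ((((Icc 1 N).powerset.filter (fun A => APFree A ∧ A.card = m ∧
      t ≤ ((∑ i ∈ S, (A ∩ prog (P i)).card : ℕ) : ℝ))).card : ℕ) : ℝ) *
        (w ^ m * Real.exp (θ * t)) ≤
      Real.exp ((1 + η) * (((∑ i ∈ S, (prog (P i)).card : ℕ) : ℝ) / N *
        (Real.log (1 + w * Real.exp θ) - Real.log (1 + w)) + Real.log (1 + w) + τ +
          L * ρ * (Real.log (1 + w * Real.exp θ) + τ)) * r3 N) := by
  set v : Fin L → ℝ := fun i => if i ∈ S then w * Real.exp θ else w with hv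
  have hexp1 : 1 ≤ Real.exp θ := Real.one_le_exp hθ
  have hwe : w ≤ w * Real.exp θ := le_mul_of_one_le_right hw.le hexp1
  have hv0 : ∀ i, 0 ≤ v i := by
    intro i
    simp only [hv]
    split_ifs
    · positivity
    · exact hw.le
  have hvW : ∀ i, v i ≤ W := by
    intro i
    simp only [hv]
    split_ifs
    · exact hwW
    · exact hwe.trans hwW
  set B : Finset (Finset ℕ) := (Icc 1 N).powerset.filter (fun A => APFree A ∧ A.card = m ∧
      t ≤ ((∑ i ∈ S, (A ∩ prog (P i)).card : ℕ) : ℝ)) with hBdef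
  set D : Finset (Finset ℕ) := (Icc 1 N).powerset.filter (fun A => APFree A) with hD
  have hprod0 : ∀ A : Finset ℕ, 0 ≤ ∏ i, v i ^ (A ∩ prog (P i)).card :=
    fun A => Finset.prod_nonneg fun i _ => pow_nonneg (hv0 i) _
  have h1 : (B.card : ℝ) * (w ^ m * Real.exp (θ * t)) ≤
      ∑ A ∈ D, ∏ i, v i ^ (A ∩ prog (P i)).card := by
    have hsub : B ⊆ D := by
      intro A hA
      rw [hBdef, mem_filter] at hA
      rw [hD, mem_filter]
      exact ⟨hA.1, hA.2.1⟩
    refine le_trans ?_ (Finset.sum_le_sum_of_subset_of_nonneg hsub (fun A _ _ => hprod0 A))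
    rw [← nsmul_eq_mul]
    apply Finset.card_nsmul_le_sum
    intro A hA
    rw [hBdef, mem_filter, mem_powerset] at hA
    obtain ⟨hAN, hAf, hAm, hAt⟩ := hA
    have h2 : ∏ i, v i ^ (A ∩ prog (P i)).card =
        w ^ m * Real.exp (θ * ((∑ i ∈ S, (A ∩ prog (P i)).card : ℕ) : ℝ)) := by
      have h3 : ∀ i, v i ^ (A ∩ prog (P i)).card = w ^ (A ∩ prog (P i)).card *
          (if i ∈ S then Real.exp θ ^ (A ∩ prog (P i)).card else 1) := by
        intro i
        simp only [hv]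
        split_ifs
        · rw [mul_pow]
        · rw [mul_one]
      rw [Finset.prod_congr rfl (fun i _ => h3 i), Finset.prod_mul_distrib,
        Finset.prod_pow_eq_pow_sum, sum_card_inter P hP A hAN, hAm, Finset.prod_ite_mem,
        Finset.univ_inter, Finset.prod_pow_eq_pow_sum, ← Real.exp_nat_mul, mul_comm θ]
    rw [h2]
    apply mul_le_mul_of_nonneg_left _ (by positivity)
    apply Real.exp_le_exp.2
    exact mul_le_mul_of_nonneg_left hAt hθ
  have h4 : ∑ A ∈ D, ∏ i, v i ^ (A ∩ prog (P i)).card ≤ ∏ i, Z (v i) (prog (P i)) :=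
    prod_ineq L (fun i => prog (P i)) (Icc 1 N) hP.2.1 hP.2.2 v hv0
  set ℓ : Fin L → ℕ := fun i => (prog (P i)).card with hℓ
  have hℓsum : ∑ i, ℓ i = N := sum_card_prog P hP
  have hℓN : ∀ i, ℓ i ≤ N := by
    intro i
    rw [← hℓsum]
    exact Finset.single_le_sum (f := ℓ) (fun _ _ => Nat.zero_le _) (Finset.mem_univ i)
  have h5 : ∀ i, Z (v i) (prog (P i)) ≤
      Real.exp ((1 + η) * ((ℓ i : ℝ) / N + ρ) * (Real.log (1 + v i) + τ) * r3 N) := by
    intro i
    rw [Z_prog (v i) (P i) (hP.1 i), ← card_prog (P i) (hP.1 i)]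
    exact hB.2 (ℓ i) (hℓN i) (v i) (hv0 i) (hvW i)
  have h6 : ∏ i, Z (v i) (prog (P i)) ≤
      Real.exp (∑ i, (1 + η) * ((ℓ i : ℝ) / N + ρ) * (Real.log (1 + v i) + τ) * r3 N) := by
    rw [Real.exp_sum]
    apply Finset.prod_le_prod
    · intro i _
      unfold Z
      exact Finset.sum_nonneg fun I _ => pow_nonneg (hv0 i) _
    · intro i _
      exact h5 i
  refine (h1.trans (h4.trans h6)).trans (Real.exp_le_exp.2 ?_)
  have hNr : (0 : ℝ) < N := by exact_mod_cast hN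
  have hr0 : (0 : ℝ) ≤ r3 N := Nat.cast_nonneg _
  have e1 : ∑ i, (1 + η) * ((ℓ i : ℝ) / N + ρ) * (Real.log (1 + v i) + τ) * r3 N =
      (1 + η) * (∑ i, ((ℓ i : ℝ) / N + ρ) * (Real.log (1 + v i) + τ)) * r3 N := by
    rw [Finset.mul_sum, Finset.sum_mul]
    apply Finset.sum_congr rfl
    intro i _
    ring
  rw [e1]
  apply mul_le_mul_of_nonneg_right _ hr0
  apply mul_le_mul_of_nonneg_left _ (by linarith)
  have hlog : ∀ i, Real.log (1 + v i) =
      Real.log (1 + w) + (if i ∈ S then (Real.log (1 + w * Real.exp θ) - Real.log (1 + w)) else 0) := by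
    intro i
    simp only [hv]
    split_ifs <;> ring
  have hvw : ∀ i, v i ≤ w * Real.exp θ := by
    intro i
    simp only [hv]
    split_ifs
    · exact le_rfl
    · exact hwe
  have hlogW : ∀ i, Real.log (1 + v i) + τ ≤ Real.log (1 + w * Real.exp θ) + τ := by
    intro i
    have := Real.log_le_log (show 0 < 1 + v i by linarith [hv0 i])
      (show 1 + v i ≤ 1 + w * Real.exp θ by linarith [hvw i])
    linarith
  have e2 : ∑ i, ((ℓ i : ℝ) / N + ρ) * (Real.log (1 + v i) + τ) =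
      (∑ i, (ℓ i : ℝ) / N * (Real.log (1 + v i) + τ)) +
        ∑ i, ρ * (Real.log (1 + v i) + τ) := by
    rw [← Finset.sum_add_distrib]
    apply Finset.sum_congr rfl
    intro i _
    ring
  have e3 : ∑ i, ρ * (Real.log (1 + v i) + τ) ≤ L * ρ * (Real.log (1 + w * Real.exp θ) + τ) := by
    have h7 : ∑ i : Fin L, ρ * (Real.log (1 + v i) + τ) ≤
        ∑ _i : Fin L, ρ * (Real.log (1 + w * Real.exp θ) + τ) :=
      Finset.sum_le_sum fun i _ => mul_le_mul_of_nonneg_left (hlogW i) hρ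
    refine h7.trans (le_of_eq ?_)
    rw [Finset.sum_const, Finset.card_univ, Fintype.card_fin, nsmul_eq_mul]
    ring
  have hsumr : ∑ i, (ℓ i : ℝ) / N = 1 := by
    rw [← Finset.sum_div]
    have : ∑ i, (ℓ i : ℝ) = N := by exact_mod_cast hℓsum
    rw [this, div_self hNr.ne']
  have e4 : ∑ i, (ℓ i : ℝ) / N * (Real.log (1 + v i) + τ) =
      ((∑ i ∈ S, (prog (P i)).card : ℕ) : ℝ) / N *
        (Real.log (1 + w * Real.exp θ) - Real.log (1 + w)) + Real.log (1 + w) + τ := by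
    have h8 : ∀ i, (ℓ i : ℝ) / N * (Real.log (1 + v i) + τ) =
        (ℓ i : ℝ) / N * (Real.log (1 + w) + τ) +
          (if i ∈ S then (ℓ i : ℝ) / N * (Real.log (1 + w * Real.exp θ) - Real.log (1 + w))
            else 0) := by
      intro i
      rw [hlog i]
      split_ifs <;> ring
    rw [Finset.sum_congr rfl (fun i _ => h8 i), Finset.sum_add_distrib, ← Finset.sum_mul, hsumr,
      Finset.sum_ite_mem, Finset.univ_inter, ← Finset.sum_mul, ← Finset.sum_div]
    push_cast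
    ring
  rw [e2, e4]
  linarith

open Classical in
theorem chernoff_one {η ρ τ W : ℝ} (hη : 0 ≤ η) (hρ : 0 ≤ ρ) (hτ : 0 ≤ τ) {N : ℕ} (hN : 1 ≤ N)
    (hB : Blk η ρ τ W N) (p : ℕ × ℕ × ℕ) (hp : 1 ≤ p.2.1) (hpN : prog p ⊆ Icc 1 N) (w θ : ℝ)
    (hw : 0 < w) (hθ : 0 ≤ θ) (hwW : w * Real.exp θ ≤ W) (m : ℕ) (t : ℝ) :
    ((((Icc 1 N).powerset.filter (fun A => APFree A ∧ A.card = m ∧
      t ≤ (((A ∩ prog p).card : ℕ) : ℝ))).card : ℕ) : ℝ) * (w ^ m * Real.exp (θ * t)) ≤
      Real.exp ((1 + η) * ((((prog p).card : ℝ) / N + ρ) *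
        (Real.log (1 + w * Real.exp θ) + τ) + (1 + ρ) * (Real.log (1 + w) + τ)) * r3 N) := by
  set S : Finset ℕ := prog p with hS
  set T : Finset ℕ := Icc 1 N \ S with hT
  have hexp1 : 1 ≤ Real.exp θ := Real.one_le_exp hθ
  have hwe : w ≤ w * Real.exp θ := le_mul_of_one_le_right hw.le hexp1
  have hwe0 : 0 ≤ w * Real.exp θ := by positivity
  have hST : S ∪ T = Icc 1 N := by
    rw [hT, Finset.union_sdiff_of_subset hpN]
  set B : Finset (Finset ℕ) := (Icc 1 N).powerset.filter (fun A => APFree A ∧ A.card = m ∧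
      t ≤ (((A ∩ S).card : ℕ) : ℝ)) with hBdef
  have h1 : (B.card : ℝ) * (w ^ m * Real.exp (θ * t)) ≤
      ∑ A ∈ (S ∪ T).powerset.filter (fun A => APFree A),
        (w * Real.exp θ) ^ (A ∩ S).card * w ^ (A ∩ T).card := by
    have hsub : B ⊆ (S ∪ T).powerset.filter (fun A => APFree A) := by
      intro A hA
      rw [hBdef, mem_filter] at hA
      rw [mem_filter, hST]
      exact ⟨hA.1, hA.2.1⟩
    refine le_trans ?_ (Finset.sum_le_sum_of_subset_of_nonneg hsub
      (fun A _ _ => mul_nonneg (pow_nonneg hwe0 _) (pow_nonneg hw.le _)))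
    rw [← nsmul_eq_mul]
    apply Finset.card_nsmul_le_sum
    intro A hA
    rw [hBdef, mem_filter, mem_powerset] at hA
    obtain ⟨hAN, hAf, hAm, hAt⟩ := hA
    have h2 : (A ∩ S).card + (A ∩ T).card = m := by
      have h3 : A ∩ T = A \ S := by
        ext x
        rw [hT, mem_inter, mem_sdiff, mem_sdiff]
        constructor
        · rintro ⟨h, -, h'⟩
          exact ⟨h, h'⟩
        · rintro ⟨h, h'⟩
          exact ⟨h, hAN h, h'⟩
      rw [h3, ← hAm, Finset.card_inter_add_card_sdiff]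
    rw [mul_pow, mul_right_comm, ← pow_add, h2, ← Real.exp_nat_mul]
    apply mul_le_mul_of_nonneg_left _ (by positivity)
    apply Real.exp_le_exp.2
    rw [mul_comm]
    exact mul_le_mul_of_nonneg_right hAt hθ
  have h4 := pi_two_blocks S T (fun I => (w * Real.exp θ) ^ I.card) (fun J => w ^ J.card)
    (fun _ => pow_nonneg hwe0 _) (fun _ => pow_nonneg hw.le _)
  have hZ0 : ∀ (x : ℝ) (_ : 0 ≤ x) (A : Finset ℕ), 0 ≤ Z x A := by
    intro x hx A
    unfold Z
    exact Finset.sum_nonneg fun I _ => pow_nonneg hx _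
  have hℓN : S.card ≤ N := by
    have := Finset.card_le_card hpN
    simpa using this
  have h5 : Z (w * Real.exp θ) S ≤ Real.exp ((1 + η) * ((S.card : ℝ) / N + ρ) *
      (Real.log (1 + w * Real.exp θ) + τ) * r3 N) := by
    rw [hS, Z_prog _ p hp, ← card_prog p hp]
    exact hB.2 _ hℓN _ hwe0 hwW
  have hNr : (0 : ℝ) < N := by exact_mod_cast hN
  have h6 : Z w T ≤ Real.exp ((1 + η) * (1 + ρ) * (Real.log (1 + w) + τ) * r3 N) := by
    refine (Z_mono hw.le (show T ⊆ Icc 1 N from Finset.sdiff_subset)).trans ?_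
    have := hB.2 N le_rfl w hw.le (hwe.trans hwW)
    rwa [div_self hNr.ne'] at this
  have h7 : (∑ I ∈ S.powerset.filter (fun I => APFree I), (w * Real.exp θ) ^ I.card) *
      ∑ J ∈ T.powerset.filter (fun I => APFree I), w ^ J.card ≤
      Real.exp ((1 + η) * ((S.card : ℝ) / N + ρ) *
        (Real.log (1 + w * Real.exp θ) + τ) * r3 N) *
      Real.exp ((1 + η) * (1 + ρ) * (Real.log (1 + w) + τ) * r3 N) := by
    have := mul_le_mul h5 h6 (hZ0 w hw.le T) (Real.exp_pos _).le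
    unfold Z at this
    convert this using 3
  refine (h1.trans (h4.trans h7)).trans (le_of_eq ?_)
  rw [← Real.exp_add]
  congr 1
  ring

end Pool.Agent.MP_0f71ae_nt.Sp
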