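import Pool.Agent.MP_0f71ae_nt.Sz.Def

/-!
# Block bounds with a separate absolute error (sets without three-term progressions of all sizes)
-/

set_option autoImplicit false

namespace Pool.Agent.MP_0f71ae_nt.Sp

open Finset Pool.Agent.MP_0f71ae_nt.Reg Pool.Agent.MP_0f71ae_nt.Sz

/-- Upper bounds for `r₃` and for the generating function of all shorter intervals. -/
def Blk (η ρ τ W : ℝ) (N : ℕ) : Prop :=
  (∀ ℓ : ℕ, ℓ ≤ N → (r3 ℓ : ℝ) ≤ (1 + η) * ((ℓ : ℝ) / N + ρ) * r3 N) ∧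
  ∀ ℓ : ℕ, ℓ ≤ N → ∀ w : ℝ, 0 ≤ w → w ≤ W →
    Z w (Icc 1 ℓ) ≤ Real.exp ((1 + η) * ((ℓ : ℝ) / N + ρ) * (Real.log (1 + w) + τ) * r3 N)

end Pool.Agent.MP_0f71ae_nt.Sp
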