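import Pool.Agent.MP_0f71ae_nt.Sp.Def
import Pool.Agent.MP_0f71ae_nt.Sz.SA

/-!
# Row SA2: the size law, with errors relative to the size
-/

set_option autoImplicit false

namespace Pool.Agent.MP_0f71ae_nt.Sp

open Finset Pool.Agent.MP_0f71ae_nt.Reg Pool.Agent.MP_0f71ae_nt.Cnt Pool.Agent.MP_0f71ae_nt.Sz

theorem size_upper2 (ε : ℝ) (hε : 0 < ε) (hε1 : ε ≤ 1) :
    ∃ η : ℝ, 0 < η ∧ η ≤ 1 ∧ ∃ W : ℝ, 1 ≤ W ∧ ∃ C1 : ℝ, 0 ≤ C1 ∧ ∃ c0 : ℝ, 0 < c0 ∧ c0 ≤ 1 ∧
      ∀ L D N : ℕ, 1 ≤ L → 1 ≤ D → 1 ≤ N →
      Blk η (c0 / L) (c0 / D) W N → C1 * L * D * Real.log (N + 1) ≤ r3 N → ∀ m ≤ r3 N,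
        (F N m : ℝ) ≤ (2 : ℝ) ^ (ε * m + r3 N / D) * (r3 N).choose m := by
  set W : ℝ := (24 / ε) ^ 2 with hW
  have h24 : 24 ≤ 24 / ε := by
    rw [le_div_iff₀ hε]
    linarith
  have hW1 : 1 ≤ W := by
    rw [hW]
    exact one_le_pow₀ (by linarith)
  have hW0 : 0 < W := by linarith
  set η : ℝ := ε / (48 * (1 + W)) with hη
  have hη0 : 0 < η := by positivity
  have hηW : η * (1 + W) = ε / 48 := by
    rw [hη]
    field_simp
  have hη1 : η ≤ 1 / 96 := by
    have h1 : η * 2 ≤ η * (1 + W) := mul_le_mul_of_nonneg_left (by linarith) hη0.le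
    linarith
  have hlog2 : (1 : ℝ) / 2 < Real.log 2 := by
    have := Real.log_two_gt_d9
    linarith
  refine ⟨η, hη0, by linarith, W, hW1, 8, by norm_num, η, hη0, by linarith, ?_⟩
  intro L D N hL hD hN hB hC m hm
  set r : ℕ := r3 N with hr
  have hL1 : (1 : ℝ) ≤ L := by exact_mod_cast hL
  have hD1 : (1 : ℝ) ≤ D := by exact_mod_cast hD
  have hD0 : (0 : ℝ) < D := by linarith
  have hr0 : (0 : ℝ) ≤ r := Nat.cast_nonneg _
  have hm0' : (0 : ℝ) ≤ m := Nat.cast_nonneg _
  have hrD0 : (0 : ℝ) ≤ (r : ℝ) / D := by positivity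
  have hNr : (N : ℝ) ≠ 0 := by
    have : (0 : ℝ) < N := by exact_mod_cast hN
    exact this.ne'
  have hlN0 : 0 ≤ Real.log ((N : ℝ) + 1) := Real.log_nonneg (by
    have : (0 : ℝ) ≤ N := Nat.cast_nonneg _
    linarith)
  have hlogN : Real.log ((N : ℝ) + 1) ≤ (r : ℝ) / D / 8 := by
    rw [div_div, le_div_iff₀ (by positivity)]
    have h1 : Real.log ((N : ℝ) + 1) * (D * 8) * 1 ≤ Real.log ((N : ℝ) + 1) * (D * 8) * L :=
      mul_le_mul_of_nonneg_left hL1 (by positivity)
    have h2 : Real.log ((N : ℝ) + 1) * (D * 8) * L = 8 * L * D * Real.log (N + 1) := by ring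
    linarith
  have h2pow : (2 : ℝ) ^ (ε * m + r / D) = Real.exp (Real.log 2 * (ε * m + r / D)) := by
    rw [Real.rpow_def_of_pos (by norm_num)]
  have hexp0 : 0 ≤ ε * m + r / D := by positivity
  have hhalf : 1 / 2 * (ε * m + r / D) ≤ Real.log 2 * (ε * m + r / D) :=
    mul_le_mul_of_nonneg_right hlog2.le hexp0
  -- the bound of the generating function
  have hZ : ∀ w : ℝ, 0 ≤ w → w ≤ W → Z w (Icc 1 N) ≤
      Real.exp (Real.log (1 + w) * r + 3 * η * Real.log (1 + w) * r + r / D / 8) := by
    intro w hw hwW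
    have h1 := hB.2 N le_rfl w hw hwW
    refine h1.trans (Real.exp_le_exp.mpr ?_)
    rw [div_self hNr]
    have hl0 : 0 ≤ Real.log (1 + w) := Real.log_nonneg (by linarith)
    have h2 : η / L ≤ η := div_le_self hη0.le hL1
    have h2' : 0 ≤ η / L := by positivity
    have h3 : (1 + η) * (1 + η / L) ≤ 1 + 3 * η := by
      have ha : η * (η / L) ≤ 1 * (η / L) := mul_le_mul_of_nonneg_right (by linarith) h2'
      have hb : (1 + η) * (1 + η / L) = 1 + η + η / L + η * (η / L) := by ring
      linarith
    have h4 : 0 ≤ Real.log (1 + w) + η / D := by positivity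
    have h5 : (1 + η) * (1 + η / L) * (Real.log (1 + w) + η / D) * r ≤
        (1 + 3 * η) * (Real.log (1 + w) + η / D) * r :=
      mul_le_mul_of_nonneg_right (mul_le_mul_of_nonneg_right h3 h4) hr0
    have h6 : (1 + 3 * η) * (Real.log (1 + w) + η / D) * r =
        Real.log (1 + w) * r + 3 * η * Real.log (1 + w) * r + (1 + 3 * η) * η * (r / D) := by
      ring
    have h7 : (1 + 3 * η) * η ≤ 1 / 8 := by
      have ha : (1 + 3 * η) * η ≤ 2 * (1 / 96) :=
        mul_le_mul (by linarith) hη1 hη0.le (by norm_num)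
      linarith
    have h8 : (1 + 3 * η) * η * (r / D) ≤ 1 / 8 * (r / D) :=
      mul_le_mul_of_nonneg_right h7 hrD0
    linarith
  rcases Nat.eq_zero_or_pos m with hm0 | hm0
  · have h1 : (F N m : ℝ) ≤ 1 := by
      rw [hm0]
      exact_mod_cast sa_F_zero N
    have h2 : (1 : ℝ) ≤ (2 : ℝ) ^ (ε * m + r / D) := Real.one_le_rpow (by norm_num) hexp0
    have h3 : (r.choose m : ℝ) = 1 := by
      rw [hm0]
      simp
    rw [h3, mul_one]
    exact h1.trans h2
  by_cases hcase : (m : ℝ) ≤ W * ((r : ℝ) - m)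
  · -- the main case
    have hmR : (0 : ℝ) < m := by exact_mod_cast hm0
    have hrm : 0 < (r : ℝ) - m := by
      by_contra hcon
      push Not at hcon
      have := mul_nonpos_of_nonneg_of_nonpos hW0.le hcon
      linarith
    have hmr : m < r := by
      have : (m : ℝ) < r := by linarith
      exact_mod_cast this
    set w : ℝ := (m : ℝ) / ((r : ℝ) - m) with hw
    have hw0 : 0 < w := by positivity
    have hwW : w ≤ W := by
      rw [hw, div_le_iff₀ hrm]
      exact hcase
    have h1 := sa_F_le N m hw0.le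
    have h2 := hZ w hw0.le hwW
    have h3 := pow_le_choose r m hm0 hmr
    rw [← hw] at h3
    have hlw : Real.log (1 + w) * r ≤ (1 + W) * m := by
      have ha : Real.log (1 + w) ≤ w := by
        have := Real.log_le_sub_one_of_pos (show (0 : ℝ) < 1 + w by linarith)
        linarith
      have hb : w * r = m + w * m := by
        have hc : w * ((r : ℝ) - m) = m := by
          rw [hw]
          field_simp
        linarith
      have hd : w * m ≤ W * m := mul_le_mul_of_nonneg_right hwW hmR.le
      have he : Real.log (1 + w) * r ≤ w * r := mul_le_mul_of_nonneg_right ha hr0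
      linarith
    have hηl : 3 * η * Real.log (1 + w) * r ≤ ε / 16 * m := by
      have ha : 3 * η * (Real.log (1 + w) * r) ≤ 3 * η * ((1 + W) * m) :=
        mul_le_mul_of_nonneg_left hlw (by positivity)
      have hb : 3 * η * ((1 + W) * m) = 3 * (η * (1 + W)) * m := by ring
      rw [hb, hηW] at ha
      linarith
    have h4 : Real.exp (Real.log (1 + w) * r + 3 * η * Real.log (1 + w) * r + r / D / 8) ≤
        (1 + w) ^ r * Real.exp (ε / 16 * m + r / D / 8) := by
      have ha : (1 + w) ^ r = Real.exp (Real.log (1 + w) * r) := by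
        rw [mul_comm (Real.log (1 + w)), Real.exp_nat_mul, Real.exp_log (by linarith)]
      rw [ha, ← Real.exp_add]
      apply Real.exp_le_exp.mpr
      linarith
    have h5 : ((r : ℝ) + 1) ≤ Real.exp (r / D / 8) := by
      have h6 : (r : ℝ) ≤ N := by exact_mod_cast r3_le N
      have h7 : (0 : ℝ) < (N : ℝ) + 1 := by positivity
      calc (r : ℝ) + 1 ≤ N + 1 := by linarith
        _ = Real.exp (Real.log (N + 1)) := (Real.exp_log h7).symm
        _ ≤ Real.exp (r / D / 8) := Real.exp_le_exp.mpr hlogN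
    have hwm : 0 < w ^ m := by positivity
    have hch : (0 : ℝ) ≤ (r.choose m : ℝ) := Nat.cast_nonneg _
    have h8 : (F N m : ℝ) * w ^ m ≤
        ((2 : ℝ) ^ (ε * m + r / D) * (r.choose m)) * w ^ m := by
      calc (F N m : ℝ) * w ^ m ≤ (1 + w) ^ r * Real.exp (ε / 16 * m + r / D / 8) :=
            (h1.trans h2).trans h4
        _ ≤ (((r : ℝ) + 1) * (r.choose m) * w ^ m) * Real.exp (ε / 16 * m + r / D / 8) :=
            mul_le_mul_of_nonneg_right h3 (Real.exp_pos _).le
        _ ≤ ((Real.exp (r / D / 8)) * (r.choose m) * w ^ m) *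
              Real.exp (ε / 16 * m + r / D / 8) := by
            apply mul_le_mul_of_nonneg_right _ (Real.exp_pos _).le
            apply mul_le_mul_of_nonneg_right _ hwm.le
            exact mul_le_mul_of_nonneg_right h5 hch
        _ = (Real.exp (r / D / 8) * Real.exp (ε / 16 * m + r / D / 8)) *
              (r.choose m) * w ^ m := by ring
        _ ≤ (2 : ℝ) ^ (ε * m + r / D) * (r.choose m) * w ^ m := by
            apply mul_le_mul_of_nonneg_right _ hwm.le
            apply mul_le_mul_of_nonneg_right _ hch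
            rw [← Real.exp_add, h2pow]
            apply Real.exp_le_exp.mpr
            have : 0 ≤ ε * m := by positivity
            linarith
    exact le_of_mul_le_mul_right h8 hwm
  · -- nearly extremal sizes
    push Not at hcase
    have h1 := sa_F_le N m hW0.le
    have h2 := hZ W hW0.le le_rfl
    have hWm : 0 < W ^ m := by positivity
    have hch : (1 : ℝ) ≤ (r.choose m : ℝ) := by
      exact_mod_cast Nat.choose_pos hm
    have hmr : (m : ℝ) ≤ r := by exact_mod_cast hm
    have hr2 : (r : ℝ) ≤ 2 * m := by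
      have ha := le_mul_of_one_le_left (sub_nonneg.2 hmr) hW1
      linarith
    have h3 : (F N m : ℝ) * W ^ m ≤ (2 : ℝ) ^ (ε * m + r / D) * W ^ m := by
      refine (h1.trans h2).trans ?_
      rw [h2pow]
      have h4 : W ^ m = Real.exp (m * Real.log W) := by
        rw [Real.exp_nat_mul, Real.exp_log hW0]
      rw [h4, ← Real.exp_add]
      apply Real.exp_le_exp.mpr
      have hlW0 : 0 ≤ Real.log W := Real.log_nonneg hW1
      -- log (1 + W) ≤ log W + 1 / W
      have h5 : Real.log (1 + W) ≤ Real.log W + 1 / W := by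
        have h6 : 1 + W = W * (1 + 1 / W) := by
          field_simp
          ring
        rw [h6, Real.log_mul hW0.ne' (by positivity)]
        have h7 := Real.log_le_sub_one_of_pos (show (0 : ℝ) < 1 + 1 / W by positivity)
        linarith
      have h5' : Real.log (1 + W) ≤ 1 + W := by
        have := Real.log_le_sub_one_of_pos (show (0 : ℝ) < 1 + W by linarith)
        linarith
      -- log W ≤ 2 √W
      have h8 : Real.log W ≤ 2 * (24 / ε) := by
        rw [hW, Real.log_pow]
        have h9 := Real.log_le_sub_one_of_pos (show (0 : ℝ) < 24 / ε by positivity)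
        push_cast
        linarith
      have h10 : (r : ℝ) - m ≤ m / W := by
        rw [le_div_iff₀ hW0]
        linarith
      have h11 : ((r : ℝ) - m) * Real.log W ≤ m / W * (2 * (24 / ε)) :=
        mul_le_mul h10 h8 hlW0 (by positivity)
      have hinv : (1 : ℝ) / W = ε ^ 2 / 576 := by
        rw [hW, div_pow, one_div, inv_div]
        norm_num
      have h12 : (1 : ℝ) / W ≤ ε / 16 := by
        rw [hinv]
        have ha : ε ^ 2 ≤ ε := by
          rw [sq]
          exact mul_le_of_le_one_left hε.le hε1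
        linarith
      have h13 : (m : ℝ) / W * (2 * (24 / ε)) = m * (ε / 12) := by
        have ha : (m : ℝ) / W = m * (ε ^ 2 / 576) := by
          rw [← hinv, mul_one_div]
        rw [ha]
        have hb : ε ^ 2 / 576 * (2 * (24 / ε)) = ε / 12 := by
          rw [sq, div_mul_eq_mul_div, div_eq_div_iff (by norm_num) (by norm_num)]
          have hc : ε * (24 / ε) = 24 := mul_div_cancel₀ 24 hε.ne'
          calc ε * ε * (2 * (24 / ε)) * 12 = ε * (ε * (24 / ε)) * 24 := by ring
            _ = ε * 576 := by rw [hc]; ring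
        rw [mul_assoc, hb]
      have h14 : Real.log (1 + W) * r ≤ Real.log W * r + ε / 8 * m := by
        have ha : Real.log (1 + W) * r ≤ (Real.log W + ε / 16) * r :=
          mul_le_mul_of_nonneg_right (by linarith) hr0
        have hb : ε / 16 * r ≤ ε / 16 * (2 * m) :=
          mul_le_mul_of_nonneg_left hr2 (by positivity)
        linarith
      have h15 : 3 * η * Real.log (1 + W) * r ≤ ε / 8 * m := by
        have ha : 3 * η * Real.log (1 + W) ≤ 3 * η * (1 + W) :=
          mul_le_mul_of_nonneg_left h5' (by positivity)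
        have hb : 3 * η * (1 + W) = ε / 16 := by
          rw [mul_assoc, hηW]
          ring
        rw [hb] at ha
        have hc : 3 * η * Real.log (1 + W) * r ≤ ε / 16 * r :=
          mul_le_mul_of_nonneg_right ha hr0
        have hd : ε / 16 * r ≤ ε / 16 * (2 * m) :=
          mul_le_mul_of_nonneg_left hr2 (by positivity)
        linarith
      have h16 : 0 ≤ ε * m := by positivity
      have h17 : Real.log W * r = ((r : ℝ) - m) * Real.log W + m * Real.log W := by ring
      linarith
    have h4 := le_of_mul_le_mul_right h3 hWm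
    refine h4.trans ?_
    have h5 : (0 : ℝ) ≤ (2 : ℝ) ^ (ε * m + r / D) := by positivity
    calc (2 : ℝ) ^ (ε * m + r / D) = (2 : ℝ) ^ (ε * m + r / D) * 1 := (mul_one _).symm
      _ ≤ (2 : ℝ) ^ (ε * m + r / D) * (r.choose m) := mul_le_mul_of_nonneg_left hch h5

end Pool.Agent.MP_0f71ae_nt.Sp
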