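import Pool.Agent.MP_0f71ae_nt.Sp.CH2
import Pool.Agent.MP_0f71ae_nt.Sz.FI
import Pool.Agent.MP_0f71ae_nt.Sz.NP
import Pool.Agent.MP_0f71ae_nt.Sz.CH

/-!
# Short progressions contain few elements of almost all sets without three-term progressions
-/

set_option autoImplicit false

namespace Pool.Agent.MP_0f71ae_nt.Sp

open Finset Pool.Agent.MP_0f71ae_nt.Reg Pool.Agent.MP_0f71ae_nt.Cnt Pool.Agent.MP_0f71ae_nt.Sz

theorem sp_main {cnt E θ t bin w : ℝ} {n m : ℕ} (hw : 0 < w)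
    (h1 : cnt * (w ^ m * Real.exp (θ * t)) ≤ Real.exp ((E + Real.log (1 + w)) * (n : ℝ)))
    (h2 : (1 + w) ^ n ≤ ((n : ℝ) + 1) * bin * w ^ m) :
    cnt ≤ Real.exp (E * n - θ * t) * (((n : ℝ) + 1) * bin) := by
  have hpow : Real.exp (Real.log (1 + w) * n) = (1 + w) ^ n := by
    rw [mul_comm, Real.exp_nat_mul, Real.exp_log (by linarith)]
  have e1 : Real.exp ((E + Real.log (1 + w)) * (n : ℝ)) = Real.exp (E * n) * (1 + w) ^ n := by
    rw [← hpow, ← Real.exp_add]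
    congr 1
    ring
  rw [e1] at h1
  have hwm : 0 < w ^ m := by positivity
  have h3 : cnt * Real.exp (θ * t) ≤ Real.exp (E * n) * (((n : ℝ) + 1) * bin) := by
    have h4 : w ^ m * (cnt * Real.exp (θ * t)) ≤
        w ^ m * (Real.exp (E * n) * (((n : ℝ) + 1) * bin)) := by
      calc w ^ m * (cnt * Real.exp (θ * t)) = cnt * (w ^ m * Real.exp (θ * t)) := by ring
        _ ≤ Real.exp (E * n) * (1 + w) ^ n := h1
        _ ≤ Real.exp (E * n) * (((n : ℝ) + 1) * bin * w ^ m) :=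
            mul_le_mul_of_nonneg_left h2 (Real.exp_pos _).le
        _ = _ := by ring
    exact le_of_mul_le_mul_left h4 hwm
  rw [Real.exp_sub, div_mul_eq_mul_div, le_div_iff₀ (Real.exp_pos _)]
  exact h3

/-- The exponent. Here `lam = m / r`, `x = log (1 + w)`, `X = log (1 + e w)`. -/
theorem sp_exponent {ε y ρ τ η c0 lam x X : ℝ} (hε : 0 < ε) (hε1 : ε ≤ 1 / 100)
    (hη : η = ε / 400) (hc0 : c0 = ε / 400) (hy : y ≤ ε / 3200) (hy0 : 0 ≤ y)
    (hρ0 : 0 ≤ ρ) (hρ : ρ ≤ c0) (hτ0 : 0 ≤ τ) (hτ : τ ≤ c0 * lam) (hlam : 0 < lam)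
    (hx0 : 0 ≤ x) (hx : x ≤ 2 * lam) (hX0 : 0 ≤ X) (hX : X ≤ 6 * lam) :
    (1 + η) * ((y + ρ) * (X + τ) + (1 + ρ) * (x + τ)) ≤ ε / 8 * lam + x := by
  have hc00 : 0 < c0 := by rw [hc0]; positivity
  have hη0 : 0 < η := by rw [hη]; positivity
  have hη1 : 1 + η ≤ 2 := by rw [hη]; linarith
  have hc1 : c0 ≤ 1 := by rw [hc0]; linarith
  have hτ1 : τ ≤ lam := hτ.trans (by nlinarith)
  -- first part
  have h1 : (y + ρ) * (X + τ) ≤ (ε / 3200 + c0) * (7 * lam) :=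
    mul_le_mul (by linarith) (by linarith) (by positivity) (by positivity)
  have h2 : (1 + η) * ((y + ρ) * (X + τ)) ≤ 2 * ((ε / 3200 + c0) * (7 * lam)) :=
    mul_le_mul hη1 h1 (by positivity) (by norm_num)
  -- second part
  have h3 : (1 + η) * (1 + ρ) ≤ 1 + (η + 2 * c0) := by
    have h4 : η * ρ ≤ 1 * ρ := mul_le_mul_of_nonneg_right (by linarith) hρ0
    have h5 : (1 + η) * (1 + ρ) = 1 + η + ρ + η * ρ := by ring
    linarith
  have h6 : (1 + η) * (1 + ρ) * x ≤ (1 + (η + 2 * c0)) * x := mul_le_mul_of_nonneg_right h3 hx0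
  have h7 : (η + 2 * c0) * x ≤ (η + 2 * c0) * (2 * lam) :=
    mul_le_mul_of_nonneg_left hx (by positivity)
  have h8 : (1 + η) * (1 + ρ) ≤ 4 := by
    have : η + 2 * c0 ≤ 3 := by rw [hη, hc0]; linarith
    linarith
  have h9 : (1 + η) * (1 + ρ) * τ ≤ 4 * (c0 * lam) :=
    mul_le_mul h8 hτ hτ0 (by norm_num)
  have e1 : (1 + η) * ((y + ρ) * (X + τ) + (1 + ρ) * (x + τ)) =
      (1 + η) * ((y + ρ) * (X + τ)) + (1 + η) * (1 + ρ) * x + (1 + η) * (1 + ρ) * τ := by ring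
  have e2 : (1 + (η + 2 * c0)) * x = x + (η + 2 * c0) * x := by ring
  have h10 : 2 * ((ε / 3200 + c0) * (7 * lam)) + (η + 2 * c0) * (2 * lam) + 4 * (c0 * lam) ≤
      ε / 8 * lam := by
    have e3 : 2 * ((ε / 3200 + c0) * (7 * lam)) + (η + 2 * c0) * (2 * lam) + 4 * (c0 * lam) =
        (14 * ε / 3200 + 22 * c0 + 2 * η) * lam := by ring
    rw [e3, hc0, hη]
    apply mul_le_mul_of_nonneg_right _ hlam.le
    linarith
  rw [e1]
  linarith

open Classical in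
/-- One progression. -/
theorem sp_one {ε : ℝ} (hε : 0 < ε) (hε1 : ε ≤ 1 / 100) {L D N : ℕ} (hL : 1 ≤ L) (hD : 1 ≤ D)
    (hN : 1 ≤ N) (hB : Blk (ε / 400) (ε / 400 / L) (ε / 400 / D) (Real.exp 1) N) {m : ℕ}
    (hm0 : 0 < m) (hmr : 2 * (m : ℝ) ≤ r3 N) (hDm : (r3 N : ℝ) ≤ D * m)
    (p : ℕ × ℕ × ℕ) (hp : 1 ≤ p.2.1) (hpN : prog p ⊆ Icc 1 N)
    (hpε : ((prog p).card : ℝ) / N ≤ ε ^ 2 / 32) :
    ((((Icc 1 N).powerset.filter (fun A => APFree A ∧ A.card = m ∧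
      ε / 2 * m ≤ (((A ∩ prog p).card : ℕ) : ℝ))).card : ℕ) : ℝ) ≤
      Real.exp (-(3 / 8 * ε * m)) * (((r3 N : ℝ) + 1) * (r3 N).choose m) := by
  have hL0 : (0 : ℝ) < L := by exact_mod_cast hL
  have hL1 : (1 : ℝ) ≤ L := by exact_mod_cast hL
  have hD0 : (0 : ℝ) < D := by exact_mod_cast hD
  have hm0' : (0 : ℝ) < m := by exact_mod_cast hm0
  have hmr' : (m : ℝ) < r3 N := by linarith
  have hmr'' : m < r3 N := by exact_mod_cast hmr'
  have hr0 : (0 : ℝ) < (r3 N : ℝ) := by linarith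
  have hrm : 0 < (r3 N : ℝ) - m := by linarith
  obtain ⟨w, hw⟩ : ∃ w : ℝ, w = (m : ℝ) / ((r3 N : ℝ) - m) := ⟨_, rfl⟩
  obtain ⟨lam, hlam⟩ : ∃ lam : ℝ, lam = (m : ℝ) / (r3 N : ℝ) := ⟨_, rfl⟩
  have hw0 : 0 < w := by rw [hw]; positivity
  have hlam0 : 0 < lam := by rw [hlam]; positivity
  have hw1 : w ≤ 1 := by
    rw [hw, div_le_one hrm]
    linarith
  have hwlam : w ≤ 2 * lam := by
    rw [hw, hlam, div_le_iff₀ hrm]
    have h1 : 2 * ((m : ℝ) / (r3 N : ℝ)) * ((r3 N : ℝ) - m) =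
        2 * (m : ℝ) * (((r3 N : ℝ) - m) / r3 N) := by ring
    have h2 : (1 : ℝ) / 2 ≤ ((r3 N : ℝ) - m) / r3 N := by
      rw [le_div_iff₀ hr0]
      linarith
    rw [h1]
    nlinarith
  have hmlam : lam * (r3 N : ℝ) = m := by rw [hlam, div_mul_cancel₀ _ hr0.ne']
  have he : Real.exp 1 ≤ 3 := by have := Real.exp_one_lt_d9; linarith
  have he1 : (1 : ℝ) ≤ Real.exp 1 := Real.one_le_exp (by norm_num)
  have hwW : w * Real.exp 1 ≤ Real.exp 1 := by
    have := mul_le_mul_of_nonneg_right hw1 (Real.exp_pos 1).le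
    linarith
  have hch := chernoff_one (show (0 : ℝ) ≤ ε / 400 by positivity)
    (show (0 : ℝ) ≤ ε / 400 / L by positivity) (show (0 : ℝ) ≤ ε / 400 / D by positivity) hN hB p
    hp hpN w 1 hw0 zero_le_one hwW m (ε / 2 * m)
  have hpc := pow_le_choose (r3 N) m hm0 hmr''
  rw [← hw] at hpc
  have hx0 : 0 ≤ Real.log (1 + w) := Real.log_nonneg (by linarith)
  have hx : Real.log (1 + w) ≤ 2 * lam := by
    have := Real.log_le_sub_one_of_pos (show 0 < 1 + w by linarith)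
    linarith
  have hX0 : 0 ≤ Real.log (1 + w * Real.exp 1) :=
    Real.log_nonneg (by have := mul_pos hw0 (Real.exp_pos 1); linarith)
  have hX : Real.log (1 + w * Real.exp 1) ≤ 6 * lam := by
    have h1 := Real.log_le_sub_one_of_pos (show 0 < 1 + w * Real.exp 1 by positivity)
    have h2 : w * Real.exp 1 ≤ 2 * lam * 3 := mul_le_mul hwlam he (Real.exp_pos 1).le (by positivity)
    linarith
  have hρ : ε / 400 / L ≤ ε / 400 := div_le_self (by positivity) hL1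
  have hτ : ε / 400 / D ≤ ε / 400 * lam := by
    have h1 : (1 : ℝ) / D ≤ lam := by
      rw [hlam, div_le_div_iff₀ hD0 hr0]
      linarith
    have h2 : ε / 400 / D = ε / 400 * (1 / D) := by ring
    rw [h2]
    exact mul_le_mul_of_nonneg_left h1 (by positivity)
  have hy : ((prog p).card : ℝ) / N ≤ ε / 3200 := by
    refine hpε.trans ?_
    nlinarith
  have hE := sp_exponent (y := ((prog p).card : ℝ) / N) (lam := lam) hε hε1 rfl rfl hy
    (by positivity) (show (0 : ℝ) ≤ ε / 400 / L by positivity) hρ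
    (show (0 : ℝ) ≤ ε / 400 / D by positivity) hτ hlam0 hx0 hx hX0 hX
  have hch2 := hch.trans (Real.exp_le_exp.2 (mul_le_mul_of_nonneg_right hE hr0.le))
  have h5 := sp_main hw0 hch2 hpc
  refine h5.trans (le_of_eq ?_)
  congr 2
  have e1 : ε / 8 * lam * (r3 N : ℝ) = ε / 8 * m := by rw [mul_assoc, hmlam]
  rw [e1]
  ring

/-- Large sets contain few elements of short progressions. -/
theorem sp_large {ε : ℝ} (hε : 0 < ε) (hε1 : ε ≤ 1 / 100) {L D N : ℕ} (hL : 1 ≤ L)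
    (hB : Blk (ε / 400) (ε / 400 / L) (ε / 400 / D) (Real.exp 1) N) {A : Finset ℕ}
    (hA : APFree A) (hmr : (r3 N : ℝ) ≤ 2 * A.card) (p : ℕ × ℕ × ℕ) (hp : 1 ≤ p.2.1)
    (hpN : prog p ⊆ Icc 1 N) (hpε : ((prog p).card : ℝ) / N ≤ ε ^ 2 / 32) :
    ((A ∩ prog p).card : ℝ) ≤ ε / 2 * A.card := by
  have hL1 : (1 : ℝ) ≤ L := by exact_mod_cast hL
  have h1 : ((A ∩ prog p).card : ℝ) ≤ r3 p.2.2 := by exact_mod_cast card_inter_prog_le hA p hp
  have h2 : p.2.2 ≤ N := by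
    have h3 := card_le_card hpN
    rw [card_prog p hp, Nat.card_Icc, Nat.add_sub_cancel] at h3
    exact h3
  have h4 := hB.1 p.2.2 h2
  rw [card_prog p hp] at hpε
  have hr0 : (0 : ℝ) ≤ r3 N := by positivity
  have hρ : ε / 400 / L ≤ ε / 400 := div_le_self (by positivity) hL1
  have h5 : (p.2.2 : ℝ) / N + ε / 400 / L ≤ ε / 3200 + ε / 400 := by
    have : ε ^ 2 / 32 ≤ ε / 3200 := by nlinarith
    linarith
  have h6 : (1 + ε / 400) * ((p.2.2 : ℝ) / N + ε / 400 / L) ≤ 2 * (ε / 3200 + ε / 400) :=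
    mul_le_mul (by linarith) h5 (by positivity) (by norm_num)
  have h7 : (1 + ε / 400) * ((p.2.2 : ℝ) / N + ε / 400 / L) * r3 N ≤
      2 * (ε / 3200 + ε / 400) * r3 N := mul_le_mul_of_nonneg_right h6 hr0
  have h8 : 2 * (ε / 3200 + ε / 400) * (r3 N : ℝ) ≤ ε / 4 * r3 N := by
    apply mul_le_mul_of_nonneg_right _ hr0
    linarith
  have h9 : ε / 4 * (r3 N : ℝ) ≤ ε / 4 * (2 * A.card) :=
    mul_le_mul_of_nonneg_left hmr (by positivity)
  linarith

/-! ### SP (file Sp/SP.lean): short progressions -/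
open Classical in
theorem short (ε : ℝ) (hε : 0 < ε) (hε1 : ε ≤ 1 / 100) :
    ∃ η : ℝ, 0 < η ∧ η ≤ 1 ∧ ∃ W : ℝ, 1 ≤ W ∧ ∃ C1 : ℝ, 0 ≤ C1 ∧ ∃ c0 : ℝ, 0 < c0 ∧ c0 ≤ 1 ∧
      ∃ c : ℝ, 0 < c ∧ ∀ L D N : ℕ, 1 ≤ L → 1 ≤ D → 1 ≤ N →
      Blk η (c0 / L) (c0 / D) W N → C1 * L * D * Real.log (N + 1) ≤ r3 N →
      ∀ m : ℕ, (r3 N : ℝ) ≤ D * m →
        ((((Icc 1 N).powerset.filter (fun A => APFree A ∧ A.card = m ∧
          ¬ ∀ p : ℕ × ℕ × ℕ, 1 ≤ p.2.1 → prog p ⊆ Icc 1 N →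
            ((prog p).card : ℝ) / N ≤ ε ^ 2 / 32 →
            ((A ∩ prog p).card : ℝ) ≤ ε / 2 * A.card)).card : ℕ) : ℝ) ≤
          (2 : ℝ) ^ (-c * m) * (r3 N).choose m := by
  refine ⟨ε / 400, by positivity, by linarith, Real.exp 1, Real.one_le_exp (by norm_num), 32 / ε,
    by positivity, ε / 400, by positivity, by linarith, ε / 4, by positivity, ?_⟩
  intro L D N hL hD hN hB hC m hDm
  have hL1 : (1 : ℝ) ≤ L := by exact_mod_cast hL
  have hD1 : (1 : ℝ) ≤ D := by exact_mod_cast hD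
  have hN0 : (1 : ℝ) ≤ N := by exact_mod_cast hN
  have hlogpos : 0 < Real.log (N + 1) := Real.log_pos (by linarith)
  have hrhs : (0 : ℝ) ≤ (2 : ℝ) ^ (-(ε / 4) * m) * (r3 N).choose m := by positivity
  rcases le_or_gt ((r3 N : ℝ)) (2 * m) with hbig | hsmall
  · -- no exception
    have h0 : (Icc 1 N).powerset.filter (fun A => APFree A ∧ A.card = m ∧
          ¬ ∀ p : ℕ × ℕ × ℕ, 1 ≤ p.2.1 → prog p ⊆ Icc 1 N →
            ((prog p).card : ℝ) / N ≤ ε ^ 2 / 32 →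
            ((A ∩ prog p).card : ℝ) ≤ ε / 2 * A.card) = ∅ := by
      rw [filter_eq_empty_iff]
      rintro A _ ⟨hA, hAm, hbad⟩
      apply hbad
      intro p hp hpN hpε
      exact sp_large hε hε1 hL hB hA (by rw [hAm]; exact hbig) p hp hpN hpε
    rw [h0, card_empty, Nat.cast_zero]
    exact hrhs
  · -- the union over all progressions
    have hr0 : (0 : ℝ) < r3 N := by
      refine lt_of_lt_of_le ?_ hC
      positivity
    have hm0 : 0 < m := by
      rcases Nat.eq_zero_or_pos m with h | h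
      · rw [h, Nat.cast_zero, mul_zero] at hDm
        linarith
      · exact h
    have hm0' : (0 : ℝ) < m := by exact_mod_cast hm0
    have hlog : 4 * Real.log (N + 1) ≤ ε / 8 * m := by
      have h1 : 32 / ε * L * D * Real.log (N + 1) ≤ D * m := hC.trans hDm
      have h2 : 32 / ε * 1 * D * Real.log (N + 1) ≤ 32 / ε * L * D * Real.log (N + 1) := by
        gcongr
      have h3 : D * (32 / ε * Real.log (N + 1)) ≤ D * m := by linarith
      have h4 : 32 / ε * Real.log (N + 1) ≤ m := le_of_mul_le_mul_left h3 (by linarith)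
      have h5 : ε / 8 * (32 / ε * Real.log (N + 1)) ≤ ε / 8 * m :=
        mul_le_mul_of_nonneg_left h4 (by positivity)
      have h6 : ε / 8 * (32 / ε * Real.log (N + 1)) = 4 * Real.log (N + 1) := by
        field_simp
        ring
      linarith
    set T : Finset (ℕ × ℕ × ℕ) := (range (N + 1) ×ˢ (range (N + 1) ×ˢ range (N + 1))).filter
      (fun p => 1 ≤ p.2.1 ∧ prog p ⊆ Icc 1 N ∧ ((prog p).card : ℝ) / N ≤ ε ^ 2 / 32) with hT
    have hTc : (T.card : ℝ) ≤ ((N : ℝ) + 1) ^ 3 := by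
      have h1 : T.card ≤ (N + 1) * ((N + 1) * (N + 1)) := by
        have h2 := card_filter_le (range (N + 1) ×ˢ (range (N + 1) ×ˢ range (N + 1)))
          (fun p : ℕ × ℕ × ℕ => 1 ≤ p.2.1 ∧ prog p ⊆ Icc 1 N ∧
            ((prog p).card : ℝ) / N ≤ ε ^ 2 / 32)
        rw [card_product, card_product, card_range] at h2
        exact h2
      have h2 : (T.card : ℝ) ≤ (((N + 1) * ((N + 1) * (N + 1)) : ℕ) : ℝ) := by exact_mod_cast h1
      refine h2.trans (le_of_eq ?_)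
      push_cast
      ring
    have hsub : (Icc 1 N).powerset.filter (fun A => APFree A ∧ A.card = m ∧
          ¬ ∀ p : ℕ × ℕ × ℕ, 1 ≤ p.2.1 → prog p ⊆ Icc 1 N →
            ((prog p).card : ℝ) / N ≤ ε ^ 2 / 32 →
            ((A ∩ prog p).card : ℝ) ≤ ε / 2 * A.card) ⊆
        T.biUnion (fun p => (Icc 1 N).powerset.filter (fun A => APFree A ∧ A.card = m ∧
          ε / 2 * m ≤ (((A ∩ prog p).card : ℕ) : ℝ))) := by
      intro A hA
      rw [mem_filter] at hA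
      obtain ⟨hAN, hA1, hAm, hbad⟩ := hA
      push Not at hbad
      obtain ⟨p, hp, hpN, hpε, hlt⟩ := hbad
      obtain ⟨p', hp', hp1, hp2⟩ := np_norm N hN p hp hpN
      rw [mem_biUnion]
      refine ⟨p', ?_, ?_⟩
      · rw [hT, mem_filter]
        exact ⟨hp', hp1, by rw [hp2]; exact hpN, by rw [hp2]; exact hpε⟩
      · rw [mem_filter]
        refine ⟨hAN, hA1, hAm, ?_⟩
        rw [hp2, ← hAm]
        exact hlt.le
    have hcard := (card_le_card hsub).trans card_biUnion_le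
    have hcard' : ((((Icc 1 N).powerset.filter (fun A => APFree A ∧ A.card = m ∧
          ¬ ∀ p : ℕ × ℕ × ℕ, 1 ≤ p.2.1 → prog p ⊆ Icc 1 N →
            ((prog p).card : ℝ) / N ≤ ε ^ 2 / 32 →
            ((A ∩ prog p).card : ℝ) ≤ ε / 2 * A.card)).card : ℕ) : ℝ) ≤
        ∑ p ∈ T, ((((Icc 1 N).powerset.filter (fun A => APFree A ∧ A.card = m ∧
          ε / 2 * m ≤ (((A ∩ prog p).card : ℕ) : ℝ))).card : ℕ) : ℝ) := by
      exact_mod_cast hcard
    refine hcard'.trans ?_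
    have hone : ∀ p ∈ T, ((((Icc 1 N).powerset.filter (fun A => APFree A ∧ A.card = m ∧
          ε / 2 * m ≤ (((A ∩ prog p).card : ℕ) : ℝ))).card : ℕ) : ℝ) ≤
        Real.exp (-(3 / 8 * ε * m)) * (((r3 N : ℝ) + 1) * (r3 N).choose m) := by
      intro p hp
      rw [hT, mem_filter] at hp
      exact sp_one hε hε1 hL hD hN hB hm0 hsmall.le hDm p hp.2.1 hp.2.2.1 hp.2.2.2
    refine (sum_le_card_nsmul _ _ _ hone).trans ?_
    rw [nsmul_eq_mul]
    have hrN : (r3 N : ℝ) + 1 ≤ (N : ℝ) + 1 := by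
      have : (r3 N : ℝ) ≤ N := by exact_mod_cast r3_le N
      linarith
    have hN1 : ((N : ℝ) + 1) ^ 4 = Real.exp (4 * Real.log (N + 1)) := by
      have h1 : Real.exp (4 * Real.log ((N : ℝ) + 1)) = Real.exp (Real.log ((N : ℝ) + 1)) ^ 4 := by
        rw [← Real.exp_nat_mul]
        norm_num
      rw [h1, Real.exp_log (by linarith)]
    have hcm : (0 : ℝ) ≤ (r3 N).choose m := by positivity
    have hpow4 : (T.card : ℝ) * ((r3 N : ℝ) + 1) ≤ ((N : ℝ) + 1) ^ 4 := by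
      calc (T.card : ℝ) * ((r3 N : ℝ) + 1) ≤ ((N : ℝ) + 1) ^ 3 * ((N : ℝ) + 1) :=
            mul_le_mul hTc hrN (by positivity) (by positivity)
        _ = ((N : ℝ) + 1) ^ 4 := by ring
    have h2pow : Real.exp (-(ε / 4 * m)) ≤ (2 : ℝ) ^ (-(ε / 4) * m) := by
      rw [Real.rpow_def_of_pos (by norm_num)]
      apply Real.exp_le_exp.2
      have hl2 : Real.log 2 ≤ 1 := by have := Real.log_two_lt_d9; linarith
      have h1 : Real.log 2 * (ε / 4 * m) ≤ 1 * (ε / 4 * m) :=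
        mul_le_mul_of_nonneg_right hl2 (by positivity)
      have h2 : Real.log 2 * (-(ε / 4) * m) = -(Real.log 2 * (ε / 4 * m)) := by ring
      rw [h2]
      linarith
    calc (T.card : ℝ) * (Real.exp (-(3 / 8 * ε * m)) * (((r3 N : ℝ) + 1) * (r3 N).choose m))
        = Real.exp (-(3 / 8 * ε * m)) * ((T.card : ℝ) * ((r3 N : ℝ) + 1)) *
            (r3 N).choose m := by ring
      _ ≤ Real.exp (-(3 / 8 * ε * m)) * ((N : ℝ) + 1) ^ 4 * (r3 N).choose m := by gcongr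
      _ = Real.exp (4 * Real.log (N + 1) - 3 / 8 * ε * m) * (r3 N).choose m := by
          rw [hN1, ← Real.exp_add]
          congr 2
          ring
      _ ≤ Real.exp (-(ε / 4 * m)) * (r3 N).choose m := by
          apply mul_le_mul_of_nonneg_right _ hcm
          apply Real.exp_le_exp.2
          linarith
      _ ≤ (2 : ℝ) ^ (-(ε / 4) * m) * (r3 N).choose m := mul_le_mul_of_nonneg_right h2pow hcm

end Pool.Agent.MP_0f71ae_nt.Sp
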