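import Pool.Agent.MP_0f71ae_nt.Sz.SB
import Pool.Agent.MP_0f71ae_nt.Sp.CH2

/-!
# Typical sets without three-term progressions, of every size `m ≥ r₃(N) / D`
-/

set_option autoImplicit false

namespace Pool.Agent.MP_0f71ae_nt.Sp

open Finset Pool.Agent.MP_0f71ae_nt.Reg Pool.Agent.MP_0f71ae_nt.Sz

theorem t2_log_diff {w θ : ℝ} (hw : 0 < w) (hθ : 0 ≤ θ) (hθ1 : θ ≤ 1) :
    Real.log (1 + w * Real.exp θ) - Real.log (1 + w) ≤ w / (1 + w) * (θ + θ ^ 2) := by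
  have h1w : 0 < 1 + w := by linarith
  have hwe : 0 < 1 + w * Real.exp θ := by
    have := mul_pos hw (Real.exp_pos θ)
    linarith
  rw [← Real.log_div hwe.ne' h1w.ne']
  have h1 := Real.log_le_sub_one_of_pos (div_pos hwe h1w)
  have h2 : (1 + w * Real.exp θ) / (1 + w) - 1 = w / (1 + w) * (Real.exp θ - 1) := by
    field_simp
    ring
  have h3 : Real.exp θ - 1 ≤ θ + θ ^ 2 := by
    have := Real.abs_exp_sub_one_sub_id_le (x := θ) (by rw [abs_of_nonneg hθ]; exact hθ1)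
    have := (abs_le.1 this).2
    linarith
  have h4 : 0 ≤ w / (1 + w) := by positivity
  have := mul_le_mul_of_nonneg_left h3 h4
  linarith

theorem t2_exponent {y Λ0 Λ1 lam θ η τ W0 : ℝ} (hy0 : 0 ≤ y) (hy1 : y ≤ 1) (h0 : 0 ≤ Λ0)
    (h01 : Λ0 ≤ Λ1) (hd : Λ1 - Λ0 ≤ lam * (θ + θ ^ 2)) (hΛ0 : Λ0 ≤ (1 + W0) * lam)
    (hlam : 0 ≤ lam) (hθ0 : 0 ≤ θ) (hθ1 : θ ≤ 1) (hη : 0 ≤ η) (hη1 : η ≤ 1) (hτ : 0 ≤ τ)
    (hτ1 : τ ≤ η * lam) :
    (1 + η) * (y * (Λ1 - Λ0) + Λ0 + τ + η * (Λ1 + τ)) ≤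
      lam * (y * (θ + θ ^ 2) + η * (13 + 3 * W0)) + Λ0 := by
  have hθ2 : θ + θ ^ 2 ≤ 2 := by nlinarith
  have h1 : Λ1 - Λ0 ≤ lam * 2 := hd.trans (mul_le_mul_of_nonneg_left hθ2 hlam)
  have hΛ1 : Λ1 ≤ (3 + W0) * lam := by linarith
  have h2 : y * (Λ1 - Λ0) ≤ y * (lam * (θ + θ ^ 2)) := mul_le_mul_of_nonneg_left hd hy0
  have h3 : y * (Λ1 - Λ0) ≤ 1 * (Λ1 - Λ0) := mul_le_mul_of_nonneg_right hy1 (by linarith)
  have h4 : η * (y * (Λ1 - Λ0) + Λ0) ≤ η * ((3 + W0) * lam) :=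
    mul_le_mul_of_nonneg_left (by linarith) hη
  have h5 : η * τ ≤ 1 * τ := mul_le_mul_of_nonneg_right hη1 hτ
  have hητ : τ ≤ lam := hτ1.trans (by nlinarith)
  have h6 : η * (Λ1 + τ) ≤ η * ((3 + W0) * lam + lam) :=
    mul_le_mul_of_nonneg_left (by linarith) hη
  have h6' : 0 ≤ η * (Λ1 + τ) := mul_nonneg hη (by linarith)
  have h7 : η * (η * (Λ1 + τ)) ≤ 1 * (η * (Λ1 + τ)) := mul_le_mul_of_nonneg_right hη1 h6'
  have e1 : (1 + η) * (y * (Λ1 - Λ0) + Λ0 + τ + η * (Λ1 + τ)) =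
      y * (Λ1 - Λ0) + Λ0 + η * (y * (Λ1 - Λ0) + Λ0) + τ + η * τ + η * (Λ1 + τ) +
        η * (η * (Λ1 + τ)) := by ring
  have e2 : lam * (y * (θ + θ ^ 2) + η * (13 + 3 * W0)) = y * (lam * (θ + θ ^ 2)) +
      η * ((3 + W0) * lam) + 2 * (η * lam) + 2 * (η * ((3 + W0) * lam + lam)) := by ring
  rw [e1, e2]
  linarith

open Classical in
/-- One partition and one union of pieces: the surplus sets of size `m`. -/
theorem surplus_count2 {ε η W0 W : ℝ} (hε : 0 < ε) (hε1 : ε ≤ 1) (hη : 0 < η) (hη1 : η ≤ 1)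
    {L D N : ℕ} (hL : 1 ≤ L) (hD : 1 ≤ D) (hN : 1 ≤ N) (hB : Blk η (η / L) (η / D) W N)
    (hηW : η * (13 + 3 * W0) ≤ ε ^ 2 / 64) (hW : W0 * Real.exp 1 ≤ W)
    (P : Fin L → ℕ × ℕ × ℕ) (hP : IsPart N L P) (S : Finset (Fin L)) (m : ℕ) (hm0 : 0 < m)
    (hmr : m < r3 N) (hmD : (r3 N : ℝ) ≤ D * m) (hwW0 : (m : ℝ) / ((r3 N : ℝ) - m) ≤ W0) :
    ((((Icc 1 N).powerset.filter (fun A => APFree A ∧ A.card = m ∧
      (((∑ i ∈ S, (prog (P i)).card : ℕ) : ℝ) / N + ε / 2) * m ≤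
        ((∑ i ∈ S, (A ∩ prog (P i)).card : ℕ) : ℝ))).card : ℕ) : ℝ) ≤
      Real.exp (-(3 / 64 * ε ^ 2) * m) * (((r3 N : ℝ) + 1) * (r3 N).choose m) := by
  have hN0 : (0 : ℝ) < N := by exact_mod_cast hN
  have hL0 : (0 : ℝ) < L := by exact_mod_cast hL
  have hD0 : (0 : ℝ) < D := by exact_mod_cast hD
  obtain ⟨y, hy⟩ : ∃ y : ℝ, y = ((∑ i ∈ S, (prog (P i)).card : ℕ) : ℝ) / N := ⟨_, rfl⟩
  have hy0 : 0 ≤ y := by rw [hy]; positivity
  have hy1 : y ≤ 1 := by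
    rw [hy, div_le_one hN0]
    exact_mod_cast sum_card_prog_le hP S
  obtain ⟨w, hw⟩ : ∃ w : ℝ, w = (m : ℝ) / ((r3 N : ℝ) - m) := ⟨_, rfl⟩
  obtain ⟨lam, hlam⟩ : ∃ lam : ℝ, lam = (m : ℝ) / (r3 N : ℝ) := ⟨_, rfl⟩
  have hmr' : (m : ℝ) < (r3 N : ℝ) := by exact_mod_cast hmr
  have hm0' : (0 : ℝ) < m := by exact_mod_cast hm0
  have hr0 : (0 : ℝ) < (r3 N : ℝ) := by linarith
  have hrm : 0 < (r3 N : ℝ) - m := by linarith
  have hw0 : 0 < w := by rw [hw]; positivity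
  have hlam0 : 0 < lam := by rw [hlam]; positivity
  have h1w : 1 + w = (r3 N : ℝ) / ((r3 N : ℝ) - m) := by
    rw [hw, eq_div_iff hrm.ne', add_mul, div_mul_cancel₀ _ hrm.ne']
    ring
  have hwl : w / (1 + w) = lam := by
    rw [h1w, hw, hlam, div_div_div_cancel_right₀ hrm.ne']
  have hwl' : w = lam * (1 + w) := by
    rw [← hwl, div_mul_cancel₀ _ (by linarith : (1 + w) ≠ 0)]
  have hww : w ≤ W0 := by rw [hw]; exact hwW0
  have hθ0 : 0 ≤ ε / 4 := by positivity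
  have hθ1 : ε / 4 ≤ 1 := by linarith
  have hwθ : w * Real.exp (ε / 4) ≤ W := by
    refine le_trans ?_ hW
    exact mul_le_mul hww (Real.exp_le_exp.2 hθ1) (Real.exp_pos _).le (hw0.le.trans hww)
  have hch := chernoff2 hη.le (show (0 : ℝ) ≤ η / L by positivity)
    (show (0 : ℝ) ≤ η / D by positivity) hN hB P hP S w (ε / 4)
    hw0 hθ0 hwθ m ((y + ε / 2) * m)
  rw [← hy] at hch ⊢
  have hpc := pow_le_choose (r3 N) m hm0 hmr
  rw [← hw] at hpc
  have hexp1 : 1 ≤ Real.exp (ε / 4) := Real.one_le_exp hθ0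
  have hwle : w ≤ w * Real.exp (ε / 4) := le_mul_of_one_le_right hw0.le hexp1
  have hlw1 : Real.log (1 + w) ≤ Real.log (1 + w * Real.exp (ε / 4)) :=
    Real.log_le_log (by linarith) (by linarith)
  have hld := t2_log_diff hw0 hθ0 hθ1
  rw [hwl] at hld
  have hΛ0 : Real.log (1 + w) ≤ (1 + W0) * lam := by
    have h1 : Real.log (1 + w) ≤ w := by
      have := Real.log_le_sub_one_of_pos (show (0 : ℝ) < 1 + w by linarith)
      linarith
    have h2 : lam * (1 + w) ≤ lam * (1 + W0) := mul_le_mul_of_nonneg_left (by linarith) hlam0.le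
    linarith
  have hτ1 : η / D ≤ η * lam := by
    rw [div_eq_mul_inv]
    apply mul_le_mul_of_nonneg_left _ hη.le
    rw [hlam, le_div_iff₀ hr0, ← div_eq_inv_mul, div_le_iff₀ hD0]
    linarith
  have hE := t2_exponent hy0 hy1 (Real.log_nonneg (by linarith)) hlw1 hld hΛ0 hlam0.le hθ0 hθ1
    hη.le hη1 (show (0 : ℝ) ≤ η / D by positivity) hτ1
  have e1 : (L : ℝ) * (η / L) = η := mul_div_cancel₀ η hL0.ne'
  rw [e1] at hch
  have hch2 := hch.trans (Real.exp_le_exp.2 (mul_le_mul_of_nonneg_right hE hr0.le))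
  have h5 := sc_main hw0 hch2 hpc
  refine h5.trans ?_
  apply mul_le_mul_of_nonneg_right _ (by positivity)
  apply Real.exp_le_exp.2
  have hmlam : (m : ℝ) = lam * r3 N := by rw [hlam, div_mul_cancel₀ _ hr0.ne']
  have e2 : lam * (y * (ε / 4 + (ε / 4) ^ 2) + η * (13 + 3 * W0)) * (r3 N : ℝ) -
      ε / 4 * ((y + ε / 2) * (m : ℝ)) =
      (y * (ε ^ 2 / 16) - ε ^ 2 / 8 + η * (13 + 3 * W0)) * (m : ℝ) := by
    rw [hmlam]; ring
  rw [e2]
  apply mul_le_mul_of_nonneg_right _ hm0'.le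
  have h6 : y * (ε ^ 2 / 16) ≤ 1 * (ε ^ 2 / 16) :=
    mul_le_mul_of_nonneg_right hy1 (by positivity)
  linarith

open Classical in
theorem typical2 (ε : ℝ) (hε : 0 < ε) (hε1 : ε ≤ 1) :
    ∃ η : ℝ, 0 < η ∧ η ≤ 1 ∧ ∃ W : ℝ, 1 ≤ W ∧ ∃ C1 : ℝ, 0 ≤ C1 ∧ ∃ c0 : ℝ, 0 < c0 ∧ c0 ≤ 1 ∧
      ∃ c : ℝ, 0 < c ∧ ∀ L D N : ℕ, 1 ≤ L → 1 ≤ D → 1 ≤ N →
      Blk η (c0 / L) (c0 / D) W N → C1 * L * D * Real.log (N + 1) ≤ r3 N →
      ∀ m : ℕ, (r3 N : ℝ) ≤ D * m →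
        ((((Icc 1 N).powerset.filter
          (fun A => APFree A ∧ A.card = m ∧ ¬ Equi ε L N A)).card : ℕ) : ℝ) ≤
          (2 : ℝ) ^ (-c * m) * (r3 N).choose m := by
  set δ : ℝ := ε / 16 with hδ
  have hδ0 : 0 < δ := by positivity
  set W0 : ℝ := 1 / δ with hW0
  have hW01 : 1 ≤ W0 := by
    rw [hW0, le_div_iff₀ hδ0, hδ]
    linarith
  set W : ℝ := W0 * Real.exp 1 with hW
  have hexp1 : 1 ≤ Real.exp 1 := Real.one_le_exp (by norm_num)
  have hW1 : 1 ≤ W := by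
    rw [hW]
    exact one_le_mul_of_one_le_of_one_le hW01 hexp1
  set η : ℝ := ε ^ 2 / (64 * (13 + 3 * W0)) with hη
  have hε2 : 0 < ε ^ 2 := by positivity
  have hη0 : 0 < η := by positivity
  have hε21 : ε ^ 2 ≤ ε := by nlinarith
  have hηV : η * (13 + 3 * W0) = ε ^ 2 / 64 := by
    have hV1 : 13 + 3 * W0 ≠ 0 := by positivity
    rw [hη, div_mul_eq_mul_div, mul_div_mul_right _ _ hV1]
  have hη64 : η ≤ ε / 64 := by
    have h1 : η * 1 ≤ η * (13 + 3 * W0) := mul_le_mul_of_nonneg_left (by linarith) hη0.le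
    linarith
  have hη1 : η ≤ 1 := by linarith
  refine ⟨η, hη0, hη1, W, hW1, 320 / ε ^ 2, by positivity, η, hη0, hη1, ε ^ 2 / 32,
    by positivity, ?_⟩
  intro L D N hL hD hN hB hG m hm
  have hN0 : (0 : ℝ) < N := by exact_mod_cast hN
  have hL0 : (1 : ℝ) ≤ L := by exact_mod_cast hL
  have hD1 : (1 : ℝ) ≤ D := by exact_mod_cast hD
  have hD0 : (0 : ℝ) < D := by linarith
  set r : ℝ := (r3 N : ℝ) with hr
  have hr1 : 1 ≤ r := by rw [hr]; exact_mod_cast r3_pos hN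
  have hr0 : 0 < r := by linarith
  have hm0' : (0 : ℝ) < m := by
    rcases Nat.eq_zero_or_pos m with h | h
    · rw [h] at hm
      simp only [Nat.cast_zero, mul_zero] at hm
      linarith
    · exact_mod_cast h
  have hm0 : 0 < m := by exact_mod_cast hm0'
  by_cases hbig : (1 - δ) * r ≤ m
  · have hemp : (Icc 1 N).powerset.filter (fun A => APFree A ∧ A.card = m ∧ ¬ Equi ε L N A) = ∅ := by
      rw [filter_eq_empty_iff]
      rintro A hA ⟨hf, hc, hne⟩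
      apply hne
      have hB' : BlockBd η (η / L) W N := by
        refine ⟨hB.1, fun ℓ hℓ w hw hwW => (hB.2 ℓ hℓ w hw hwW).trans (Real.exp_le_exp.2 ?_)⟩
        apply mul_le_mul_of_nonneg_right _ hr0.le
        apply mul_le_mul_of_nonneg_left _ (by positivity)
        have : η / D ≤ η := div_le_self hη0.le hD1
        linarith
      apply equi_of_large hη0.le hη1 (show (0 : ℝ) ≤ η / L by positivity) hδ0.le hε1 hN hB' _ A
        (mem_powerset.1 hA) hf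
      · rw [hc]; exact hbig
      · have e1 : 2 * (L : ℝ) * (η / L) = 2 * η := by field_simp
        rw [e1, hδ]
        linarith
    rw [hemp]
    simp only [card_empty, Nat.cast_zero]
    positivity
  push Not at hbig
  have hδr : (1 - δ) * r = r - δ * r := by ring
  have hδr0 : 0 < δ * r := by positivity
  have hmr' : (m : ℝ) < r := by linarith
  have hmr : m < r3 N := by rw [hr] at hmr'; exact_mod_cast hmr'
  have hwW : (m : ℝ) / (r - m) ≤ W0 := by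
    rw [hW0, div_le_div_iff₀ (by linarith) hδ0]
    have h1 : (m : ℝ) * (1 + δ) ≤ (1 - δ) * r * (1 + δ) :=
      mul_le_mul_of_nonneg_right hbig.le (by linarith)
    have e1 : (1 - δ) * r * (1 + δ) = r - δ * (δ * r) := by ring
    have e2 : (m : ℝ) * (1 + δ) = m + m * δ := by ring
    have h2 : 0 ≤ δ * (δ * r) := by positivity
    linarith
  obtain ⟨Q, hQc, hQ, hQall⟩ := exists_family N L hN
  set X : ℝ := Real.exp (-(3 / 64 * ε ^ 2) * m) * ((r + 1) * (r3 N).choose m) with hX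
  have hX0 : 0 ≤ X := by positivity
  -- union bound
  have hsub : (Icc 1 N).powerset.filter (fun A => APFree A ∧ A.card = m ∧ ¬ Equi ε L N A) ⊆
      (Q ×ˢ (Finset.univ : Finset (Finset (Fin L)))).biUnion (fun PS =>
        (Icc 1 N).powerset.filter (fun A => APFree A ∧ A.card = m ∧
          (((∑ i ∈ PS.2, (prog (PS.1 i)).card : ℕ) : ℝ) / N + ε / 2) * m ≤
            ((∑ i ∈ PS.2, (A ∩ prog (PS.1 i)).card : ℕ) : ℝ))) := by
    intro A hA
    rw [mem_filter, mem_powerset] at hA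
    obtain ⟨hAN, hf, hc, hne⟩ := hA
    obtain ⟨P, hP, S, hS⟩ := exists_surplus hN A hAN hne
    obtain ⟨P', hP', hPP⟩ := hQall P hP
    rw [mem_biUnion]
    refine ⟨(P', S), mem_product.2 ⟨hP', mem_univ _⟩, ?_⟩
    rw [mem_filter, mem_powerset]
    refine ⟨hAN, hf, hc, ?_⟩
    rw [hc] at hS
    simp only [← hPP]
    exact hS
  have hcard : ((((Icc 1 N).powerset.filter
      (fun A => APFree A ∧ A.card = m ∧ ¬ Equi ε L N A)).card : ℕ) : ℝ) ≤
      ((N : ℝ) + 1) ^ (3 * L) * 2 ^ L * X := by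
    have h1 := (card_le_card hsub).trans card_biUnion_le
    have h2 : ((((Icc 1 N).powerset.filter
      (fun A => APFree A ∧ A.card = m ∧ ¬ Equi ε L N A)).card : ℕ) : ℝ) ≤
      ∑ PS ∈ Q ×ˢ (Finset.univ : Finset (Finset (Fin L))),
        ((((Icc 1 N).powerset.filter (fun A => APFree A ∧ A.card = m ∧
          (((∑ i ∈ PS.2, (prog (PS.1 i)).card : ℕ) : ℝ) / N + ε / 2) * m ≤
            ((∑ i ∈ PS.2, (A ∩ prog (PS.1 i)).card : ℕ) : ℝ))).card : ℕ) : ℝ) := by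
      exact_mod_cast h1
    have h3 : ∑ PS ∈ Q ×ˢ (Finset.univ : Finset (Finset (Fin L))),
        ((((Icc 1 N).powerset.filter (fun A => APFree A ∧ A.card = m ∧
          (((∑ i ∈ PS.2, (prog (PS.1 i)).card : ℕ) : ℝ) / N + ε / 2) * m ≤
            ((∑ i ∈ PS.2, (A ∩ prog (PS.1 i)).card : ℕ) : ℝ))).card : ℕ) : ℝ) ≤
        ∑ PS ∈ Q ×ˢ (Finset.univ : Finset (Finset (Fin L))), X := by
      apply sum_le_sum
      intro PS hPS
      have hPQ := hQ PS.1 (mem_product.1 hPS).1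
      exact surplus_count2 hε hε1 hη0 hη1 hL hD hN hB hηV.le le_rfl PS.1 hPQ PS.2 m hm0 hmr hm hwW
    refine h2.trans (h3.trans ?_)
    rw [sum_const, nsmul_eq_mul, card_product, card_univ, Fintype.card_finset, Fintype.card_fin]
    push_cast
    apply mul_le_mul_of_nonneg_right _ hX0
    exact mul_le_mul_of_nonneg_right hQc (by positivity)
  refine hcard.trans ?_
  -- the number of partitions is small
  set ℓ : ℝ := Real.log ((N : ℝ) + 1) with hℓ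
  have hℓ0 : 0 ≤ ℓ := Real.log_nonneg (by linarith)
  have hLℓ : L * ℓ ≤ ε ^ 2 / 320 * m := by
    have h1 : 320 / ε ^ 2 * L * D * ℓ ≤ D * m := le_trans hG hm
    have h2 : ε ^ 2 / 320 * (320 / ε ^ 2 * L * D * ℓ) ≤ ε ^ 2 / 320 * (D * m) :=
      mul_le_mul_of_nonneg_left h1 (by positivity)
    have e : ε ^ 2 / 320 * (320 / ε ^ 2 * L * D * ℓ) = D * (L * ℓ) := by field_simp
    have e' : ε ^ 2 / 320 * (D * (m : ℝ)) = D * (ε ^ 2 / 320 * m) := by ring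
    rw [e, e'] at h2
    exact le_of_mul_le_mul_left h2 hD0
  have hℓL : ℓ ≤ L * ℓ := le_mul_of_one_le_left hℓ0 hL0
  have hb1 : ((N : ℝ) + 1) ^ (3 * L) = Real.exp (3 * L * ℓ) := by
    have : (3 * L * ℓ : ℝ) = ((3 * L : ℕ) : ℝ) * ℓ := by push_cast; ring
    rw [this, Real.exp_nat_mul, hℓ, Real.exp_log (by linarith)]
  have hb2 : (2 : ℝ) ^ L ≤ Real.exp (L * ℓ) := by
    rw [Real.exp_nat_mul, hℓ, Real.exp_log (by linarith)]
    apply pow_le_pow_left₀ (by norm_num)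
    have : (1 : ℝ) ≤ N := by exact_mod_cast hN
    linarith
  have hb3 : r + 1 ≤ Real.exp ℓ := by
    rw [hℓ, Real.exp_log (by linarith)]
    have : r ≤ N := by rw [hr]; exact_mod_cast r3_le N
    linarith
  have hb4 : Real.exp (-(ε ^ 2 / 32) * m) ≤ (2 : ℝ) ^ (-(ε ^ 2 / 32) * (m : ℝ)) := by
    rw [Real.rpow_def_of_pos (by norm_num)]
    apply Real.exp_le_exp.2
    have h1 := Real.log_two_lt_d9
    have h3 : 0 ≤ ε ^ 2 / 32 * m := by positivity
    have h4 := mul_le_mul_of_nonneg_right (show Real.log 2 ≤ 1 by linarith) h3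
    have e1 : Real.log 2 * (-(ε ^ 2 / 32) * m) = -(Real.log 2 * (ε ^ 2 / 32 * m)) := by ring
    rw [e1]
    linarith
  have hch0 : (0 : ℝ) ≤ (r3 N).choose m := Nat.cast_nonneg _
  calc ((N : ℝ) + 1) ^ (3 * L) * 2 ^ L * X
      ≤ Real.exp (3 * L * ℓ) * Real.exp (L * ℓ) *
        (Real.exp (-(3 / 64 * ε ^ 2) * m) * (Real.exp ℓ * (r3 N).choose m)) := by
        rw [hb1, hX]
        apply mul_le_mul
        · exact mul_le_mul_of_nonneg_left hb2 (Real.exp_pos _).le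
        · apply mul_le_mul_of_nonneg_left _ (Real.exp_pos _).le
          exact mul_le_mul_of_nonneg_right hb3 hch0
        · positivity
        · positivity
    _ = Real.exp (3 * L * ℓ + L * ℓ + -(3 / 64 * ε ^ 2) * m + ℓ) * (r3 N).choose m := by
        rw [Real.exp_add, Real.exp_add, Real.exp_add]
        ring
    _ ≤ Real.exp (-(ε ^ 2 / 32) * m) * (r3 N).choose m := by
        apply mul_le_mul_of_nonneg_right _ hch0
        apply Real.exp_le_exp.2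
        have e1 : 3 * (L : ℝ) * ℓ = 3 * (L * ℓ) := by ring
        rw [e1]
        have e2 : ε ^ 2 / 320 * (m : ℝ) = 1 / 320 * (ε ^ 2 * m) := by ring
        have e3 : -(3 / 64 * ε ^ 2) * (m : ℝ) = -(3 / 64) * (ε ^ 2 * m) := by ring
        have e4 : -(ε ^ 2 / 32) * (m : ℝ) = -(1 / 32) * (ε ^ 2 * m) := by ring
        rw [e2] at hLℓ
        rw [e3, e4]
        linarith
    _ ≤ (2 : ℝ) ^ (-(ε ^ 2 / 32) * (m : ℝ)) * (r3 N).choose m :=
        mul_le_mul_of_nonneg_right hb4 hch0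

end Pool.Agent.MP_0f71ae_nt.Sp
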