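import Pool.Agent.MP_0f71ae_nt.Sp.SW2
import Pool.Agent.MP_0f71ae_nt.Sp.T2
import Pool.Agent.MP_0f71ae_nt.Sp.SP
import Pool.Agent.MP_0f71ae_nt.Sp.SA2
import Pool.Agent.MP_0f71ae_nt.Sz.SC
import Pool.Agent.MP_0f71ae_nt.Typ.Ev2
import Pool.Agent.MP_0f71ae_nt.Cnt.Rounds

/-!
# The size law and the typical structure for all sizes, at almost all scales: assembly
-/

set_option autoImplicit false

namespace Pool.Agent.MP_0f71ae_nt.Sp

open Finset Pool.Agent.MP_0f71ae_nt.Reg Pool.Agent.MP_0f71ae_nt.Cnt Pool.Agent.MP_0f71ae_nt.Sz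
  Pool.Agent.MP_0f71ae_nt.Fine

theorem fb_badScales_mono {P Q : ℕ → Prop} (h : ∀ N, 1 ≤ N → P N → Q N) (a K : ℕ) :
    ((badScales Q a K).card : ℝ) ≤ (badScales P a K).card := by
  classical
  have h1 : badScales Q a K ⊆ badScales P a K := by
    intro k hk
    rw [badScales, mem_filter] at hk ⊢
    refine ⟨hk.1, fun hc => hk.2 ?_⟩
    intro N h1 h2
    exact h N (le_trans Nat.one_le_two_pow h1) (hc N h1 h2)
  exact_mod_cast card_le_card h1

theorem blockBd_of_blk {η ρ τ W : ℝ} {N : ℕ} (h : Blk η ρ τ W N) (hη : 0 ≤ η) (hρ : 0 ≤ ρ)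
    (hτ : τ ≤ η) : BlockBd η ρ W N := by
  refine ⟨h.1, fun ℓ hℓ w hw hwW => (h.2 ℓ hℓ w hw hwW).trans ?_⟩
  apply Real.exp_le_exp.2
  apply mul_le_mul_of_nonneg_right _ (Nat.cast_nonneg _)
  apply mul_le_mul_of_nonneg_left (by linarith)
  positivity

theorem Even.mono' {e ε L : ℝ} {N : ℕ} {A : Finset ℕ} (he : e ≤ ε) (h : Even e L N A) :
    Even ε L N A := by
  have h0 : e * (A.card : ℝ) ≤ ε * A.card := mul_le_mul_of_nonneg_right he (Nat.cast_nonneg _)
  exact ⟨fun Q hQ hP => (h.1 Q hQ hP).trans h0, fun P hP hPN => (h.2.1 P hP hPN).trans h0,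
    fun b q β hq hqL hβ => (h.2.2 b q β hq hqL hβ).trans h0⟩

open Classical in
/-- The structure of the typical progression-free subsets of `{1, …, N}`:
* the number `F N m` of progression-free sets with `m` elements;
* almost all progression-free sets with `m ≥ r₃(N) / D` elements are equidistributed;
* almost all progression-free sets have about `r₃(N) / 2` elements and are equidistributed. -/
def Law (ε c L D : ℝ) (N : ℕ) : Prop :=
  (∀ m ≤ r3 N, (r3 N).choose m ≤ F N m ∧
    (F N m : ℝ) ≤ (2 : ℝ) ^ (ε * m + r3 N / D) * (r3 N).choose m) ∧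
  (∀ m : ℕ, (r3 N : ℝ) ≤ D * m → ((((Finset.Icc 1 N).powerset.filter
    (fun A => APFree A ∧ A.card = m ∧ ¬ Even ε L N A)).card : ℕ) : ℝ) ≤
      (2 : ℝ) ^ (-c * m) * (r3 N).choose m) ∧
  ((((Finset.Icc 1 N).powerset.filter (fun A => APFree A ∧
    ¬ (|(A.card : ℝ) - r3 N / 2| ≤ ε * r3 N ∧ Even ε L N A))).card : ℕ) : ℝ) ≤
      (2 : ℝ) ^ (-c * r3 N) * apCount N

open Classical in
theorem law_even2 (ε : ℝ) (hε : 0 < ε) (hε1 : ε ≤ 1) : ∃ c : ℝ, 0 < c ∧ ∃ C : ℝ,
    ∀ L D : ℝ, 1 ≤ L → 1 ≤ D → ∀ a K : ℕ, ((badScales (Law ε c L D) a K).card : ℝ) ≤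
      C * Real.log (L * D * (a + K + 2)) * √K := by
  obtain ⟨e, he⟩ : ∃ e : ℝ, e = ε / 100 := ⟨_, rfl⟩
  have he0 : 0 < e := by rw [he]; positivity
  have he1 : e ≤ 1 / 100 := by rw [he]; linarith
  have heε : e ≤ ε := by rw [he]; linarith
  have hl2 : 0 < Real.log 2 := Real.log_pos (by norm_num)
  have hl2g := Real.log_two_gt_d9
  obtain ⟨η1, hη1, hη11, W1, hW1, C1, hC1, c01, hc01, hc011, hup⟩ :=
    size_upper2 e he0 (by linarith)
  obtain ⟨η2, hη2, hη21, W2, hW2, C2, hC2, c02, hc02, hc021, c2, hc2, htyp⟩ :=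
    typical2 (e / 4) (by positivity) (by linarith)
  obtain ⟨η4, hη4, hη41, W4, hW4, C4, hC4, c04, hc04, hc041, c4, hc4, hsh⟩ :=
    short e he0 he1
  obtain ⟨η3, hη3, hη31, W3, hW3, c3, hc3, hhalf⟩ := half e he0 (by linarith)
  obtain ⟨η, hη⟩ : ∃ η : ℝ, η = min (min η1 η2) (min η3 η4) := ⟨_, rfl⟩
  have hη0 : 0 < η := by rw [hη]; exact lt_min (lt_min hη1 hη2) (lt_min hη3 hη4)
  have hηa : η ≤ η1 := by rw [hη]; exact (min_le_left _ _).trans (min_le_left _ _)
  have hηb : η ≤ η2 := by rw [hη]; exact (min_le_left _ _).trans (min_le_right _ _)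
  have hηc : η ≤ η3 := by rw [hη]; exact (min_le_right _ _).trans (min_le_left _ _)
  have hηd : η ≤ η4 := by rw [hη]; exact (min_le_right _ _).trans (min_le_right _ _)
  obtain ⟨W, hW⟩ : ∃ W : ℝ, W = max (max W1 W2) (max W3 W4) := ⟨_, rfl⟩
  have hWa : W1 ≤ W := by rw [hW]; exact (le_max_left _ _).trans (le_max_left _ _)
  have hWb : W2 ≤ W := by rw [hW]; exact (le_max_right _ _).trans (le_max_left _ _)
  have hWc : W3 ≤ W := by rw [hW]; exact (le_max_left _ _).trans (le_max_right _ _)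
  have hWd : W4 ≤ W := by rw [hW]; exact (le_max_right _ _).trans (le_max_right _ _)
  obtain ⟨d0, hd0⟩ : ∃ d0 : ℝ, d0 = min (min c01 c02) (min η3 c04) := ⟨_, rfl⟩
  have hd00 : 0 < d0 := by rw [hd0]; exact lt_min (lt_min hc01 hc02) (lt_min hη3 hc04)
  have hda : d0 ≤ c01 := by rw [hd0]; exact (min_le_left _ _).trans (min_le_left _ _)
  have hdb : d0 ≤ c02 := by rw [hd0]; exact (min_le_left _ _).trans (min_le_right _ _)
  have hdc : d0 ≤ η3 := by rw [hd0]; exact (min_le_right _ _).trans (min_le_left _ _)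
  have hdd : d0 ≤ c04 := by rw [hd0]; exact (min_le_right _ _).trans (min_le_right _ _)
  -- the exponents
  obtain ⟨c5, hc5⟩ : ∃ c5 : ℝ, c5 = min c2 c4 := ⟨_, rfl⟩
  have hc50 : 0 < c5 := by rw [hc5]; exact lt_min hc2 hc4
  have hc5a : c5 ≤ c2 := by rw [hc5]; exact min_le_left _ _
  have hc5b : c5 ≤ c4 := by rw [hc5]; exact min_le_right _ _
  obtain ⟨c7, hc7⟩ : ∃ c7 : ℝ, c7 = min c3 (c5 / 8) := ⟨_, rfl⟩
  have hc70 : 0 < c7 := by rw [hc7]; exact lt_min hc3 (by positivity)
  have hc7a : c7 ≤ c3 := by rw [hc7]; exact min_le_left _ _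
  have hc7b : c7 ≤ c5 / 8 := by rw [hc7]; exact min_le_right _ _
  obtain ⟨C3, hC3⟩ : ∃ C3 : ℝ, C3 = max (max C1 C2) (max C4 (8 / c7)) := ⟨_, rfl⟩
  have hC3a : C1 ≤ C3 := by rw [hC3]; exact (le_max_left _ _).trans (le_max_left _ _)
  have hC3b : C2 ≤ C3 := by rw [hC3]; exact (le_max_right _ _).trans (le_max_left _ _)
  have hC3c : C4 ≤ C3 := by rw [hC3]; exact (le_max_left _ _).trans (le_max_right _ _)
  have hC3d : 8 / c7 ≤ C3 := by rw [hC3]; exact (le_max_right _ _).trans (le_max_right _ _)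
  have hC30 : 0 ≤ C3 := hC1.trans hC3a
  obtain ⟨C, hC⟩ := blk_win η W d0 C3 hη0 (hηa.trans hη11) (hW1.trans hWa) hd00
    (hda.trans hc011) hC30
  -- the lengths
  obtain ⟨Q, hQ⟩ : ∃ Q : ℝ, Q = 8 * (256 / e ^ 2 + 1) := ⟨_, rfl⟩
  have hQ1 : 1 ≤ Q := by
    rw [hQ]
    have h1 : 0 ≤ 256 / e ^ 2 := by positivity
    linarith
  refine ⟨c7 / 2, by positivity, max C 0 * (Real.log Q / Real.log 2 + 2), ?_⟩
  intro L D hL hD a K
  obtain ⟨L', hL'⟩ : ∃ L' : ℕ, L' = ⌈256 * L ^ 2 / e ^ 2⌉₊ := ⟨_, rfl⟩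
  obtain ⟨D', hD'⟩ : ∃ D' : ℕ, D' = 4 * ⌈D⌉₊ := ⟨_, rfl⟩
  have hLa : 256 * L ^ 2 / e ^ 2 ≤ L' := by
    rw [hL']
    exact Nat.le_ceil _
  have hLb : (L' : ℝ) ≤ (256 / e ^ 2 + 1) * L ^ 2 := by
    have h1 := (Nat.ceil_lt_add_one (show 0 ≤ 256 * L ^ 2 / e ^ 2 by positivity)).le
    rw [← hL'] at h1
    have h2 : 1 ≤ L ^ 2 := by nlinarith
    have h3 : (256 / e ^ 2 + 1) * L ^ 2 = 256 * L ^ 2 / e ^ 2 + L ^ 2 := by ring
    linarith
  have hL1' : (1 : ℝ) ≤ L' := by
    refine le_trans ?_ hLa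
    rw [le_div_iff₀ (by positivity)]
    nlinarith
  have hL1 : 1 ≤ L' := by exact_mod_cast hL1'
  have hDc := Nat.le_ceil D
  have hDa : 4 * D ≤ D' := by
    rw [hD']
    push_cast
    linarith
  have hDb : (D' : ℝ) ≤ 8 * D := by
    have h1 := (Nat.ceil_lt_add_one (show 0 ≤ D by linarith)).le
    rw [hD']
    push_cast
    linarith
  have hD4 : (4 : ℝ) ≤ D' := by linarith
  have hD0 : (0 : ℝ) < D' := by linarith
  have hD1 : 1 ≤ D' := by
    have : (1 : ℝ) ≤ D' := by linarith
    exact_mod_cast this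
  have hL0 : (0 : ℝ) < L' := by linarith
  have hb : ((badScales (Law ε (c7 / 2) L D) a K).card : ℝ) ≤
      C * Real.log (L' * D' * (a + K + 2)) * √K := by
    refine (fb_badScales_mono ?_ a K).trans (hC L' D' a K hL1 hD1)
    rintro N hN ⟨hB, hG⟩
    obtain ⟨r, hr⟩ : ∃ r : ℝ, r = (r3 N : ℝ) := ⟨_, rfl⟩
    have hr0 : 0 ≤ r := by rw [hr]; exact Nat.cast_nonneg _
    have hlogN : Real.log 2 ≤ Real.log ((N : ℝ) + 1) := by
      apply Real.log_le_log (by norm_num)
      have : (1 : ℝ) ≤ N := by exact_mod_cast hN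
      linarith
    have hlogN0 : 0 ≤ Real.log ((N : ℝ) + 1) := hl2.le.trans hlogN
    have hX0 : 0 ≤ (L' : ℝ) * D' * Real.log (N + 1) :=
      mul_nonneg (mul_nonneg hL0.le hD0.le) hlogN0
    have hρ0 : 0 ≤ d0 / L' := by positivity
    have hτ0 : 0 ≤ d0 / D' := by positivity
    have hρ1 : d0 / L' ≤ d0 := div_le_self hd00.le hL1'
    have hτ1 : d0 / D' ≤ d0 := div_le_self hd00.le (by linarith)
    have hG' : ∀ X : ℝ, X ≤ C3 → X * L' * D' * Real.log (N + 1) ≤ r3 N := by
      intro X hX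
      refine le_trans ?_ hG
      have := mul_le_mul_of_nonneg_right hX hX0
      linarith
    have hB1 : Blk η1 (c01 / L') (c01 / D') W1 N := hB.mono hη0.le hηa hρ0
      (div_le_div_of_nonneg_right hda hL0.le) hτ0 (div_le_div_of_nonneg_right hda hD0.le) hWa
    have hB2 : Blk η2 (c02 / L') (c02 / D') W2 N := hB.mono hη0.le hηb hρ0
      (div_le_div_of_nonneg_right hdb hL0.le) hτ0 (div_le_div_of_nonneg_right hdb hD0.le) hWb
    have hB4 : Blk η4 (c04 / L') (c04 / D') W4 N := hB.mono hη0.le hηd hρ0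
      (div_le_div_of_nonneg_right hdd hL0.le) hτ0 (div_le_div_of_nonneg_right hdd hD0.le) hWd
    have hB3 : BlockBd η3 (d0 / L') W3 N :=
      blockBd_of_blk (hB.mono hη0.le hηc hρ0 le_rfl hτ0 le_rfl hWc) hη3.le hρ0
        (hτ1.trans hdc)
    have h1 := hup L' D' N hL1 hD1 hN hB1 (hG' _ hC3a)
    have h2 := htyp L' D' N hL1 hD1 hN hB2 (hG' _ hC3b)
    have h4 := hsh L' D' N hL1 hD1 hN hB4 (hG' _ hC3c)
    have h3 := hhalf N hN (d0 / L') hρ0 (hρ1.trans hdc) hB3
    have h20 : (0 : ℝ) < 2 := by norm_num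
    have h21 : (1 : ℝ) ≤ 2 := by norm_num
    -- `r` is large
    have hLlog : C3 * Real.log 2 ≤ C3 * L' * Real.log ((N : ℝ) + 1) := by
      have h5 : Real.log 2 ≤ L' * Real.log ((N : ℝ) + 1) :=
        hlogN.trans (le_mul_of_one_le_left hlogN0 hL1')
      have h6 := mul_le_mul_of_nonneg_left h5 hC30
      linarith
    have hc7C : 4 / c7 ≤ C3 * Real.log 2 := by
      have h5 : 8 / c7 * Real.log 2 ≤ C3 * Real.log 2 :=
        mul_le_mul_of_nonneg_right hC3d hl2.le
      have h6 : 4 / c7 = 8 / c7 * (1 / 2) := by ring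
      have h7 : 8 / c7 * (1 / 2) ≤ 8 / c7 * Real.log 2 :=
        mul_le_mul_of_nonneg_left (by linarith) (by positivity)
      linarith
    have hmlarge : ∀ m : ℕ, r ≤ D' * m → 4 / c7 ≤ m := by
      intro m hm
      have h5 : C3 * L' * Real.log ((N : ℝ) + 1) ≤ m := by
        have h6 : (D' : ℝ) * (C3 * L' * Real.log ((N : ℝ) + 1)) ≤ D' * m := by
          refine le_trans (le_of_eq ?_) ((hG.trans_eq hr.symm).trans hm)
          ring
        exact le_of_mul_le_mul_left h6 hD0
      linarith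
    have hrlarge : 4 / c7 ≤ r := by
      have h5 : C3 * L' * Real.log ((N : ℝ) + 1) ≤ r := by
        rw [hr]
        refine le_trans ?_ hG
        have h6 : 0 ≤ C3 * L' * Real.log ((N : ℝ) + 1) :=
          mul_nonneg (mul_nonneg hC30 hL0.le) hlogN0
        have h7 : C3 * L' * D' * Real.log ((N : ℝ) + 1) =
            D' * (C3 * L' * Real.log ((N : ℝ) + 1)) := by ring
        rw [h7]
        exact le_mul_of_one_le_left h6 (by linarith)
      linarith
    -- sets of size `m`
    have hbad : ∀ m : ℕ, r ≤ D' * m → ((((Icc 1 N).powerset.filter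
        (fun A => APFree A ∧ A.card = m ∧ ¬ Even e L N A)).card : ℕ) : ℝ) ≤
        (2 : ℝ) ^ (-(c5 / 2) * m) * (r3 N).choose m := by
      intro m hm
      have hm' : (r3 N : ℝ) ≤ D' * m := by rw [← hr]; exact hm
      have hml := hmlarge m hm
      have hsub : (Icc 1 N).powerset.filter
          (fun A => APFree A ∧ A.card = m ∧ ¬ Even e L N A) ⊆
          (Icc 1 N).powerset.filter
            (fun A => APFree A ∧ A.card = m ∧ ¬ Equi (e / 4) L' N A) ∪
          (Icc 1 N).powerset.filter (fun A => APFree A ∧ A.card = m ∧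
          ¬ ∀ p : ℕ × ℕ × ℕ, 1 ≤ p.2.1 → prog p ⊆ Icc 1 N →
            ((prog p).card : ℝ) / N ≤ e ^ 2 / 32 →
            ((A ∩ prog p).card : ℝ) ≤ e / 2 * A.card) := by
        intro A hA
        rw [mem_filter] at hA
        rw [mem_union, mem_filter, mem_filter]
        by_contra hcon
        rw [not_or] at hcon
        apply hA.2.2.2
        have hE : Equi (e / 4) L' N A := by
          by_contra hE
          exact hcon.1 ⟨hA.1, hA.2.1, hA.2.2.1, hE⟩
        have hS : ∀ p : ℕ × ℕ × ℕ, 1 ≤ p.2.1 → prog p ⊆ Icc 1 N →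
            ((prog p).card : ℝ) / N ≤ e ^ 2 / 32 →
            ((A ∩ prog p).card : ℝ) ≤ e / 2 * A.card := by
          by_contra hS
          exact hcon.2 ⟨hA.1, hA.2.1, hA.2.2.1, hS⟩
        refine Typ.even_of_equi he0 (by linarith) hL hN hLa (mem_powerset.1 hA.1) hE ?_
        rintro P hPN ⟨a, q, l, hq, rfl⟩ hPc
        exact hS (a, q, l) hq hPN hPc
      have h5 := (card_le_card hsub).trans (card_union_le _ _)
      have h6 : ((((Icc 1 N).powerset.filter
        (fun A => APFree A ∧ A.card = m ∧ ¬ Even e L N A)).card : ℕ) : ℝ) ≤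
        (2 : ℝ) ^ (-c2 * m) * (r3 N).choose m + (2 : ℝ) ^ (-c4 * m) * (r3 N).choose m := by
        have h5' := (Nat.cast_le (α := ℝ)).2 h5
        rw [Nat.cast_add] at h5'
        exact h5'.trans (add_le_add (h2 m hm') (h4 m hm'))
      refine h6.trans ?_
      have hm0 : (0 : ℝ) ≤ m := Nat.cast_nonneg _
      have h7 : (2 : ℝ) ^ (-c2 * m) ≤ (2 : ℝ) ^ (-c5 * m) :=
        Real.rpow_le_rpow_of_exponent_le h21 (mul_le_mul_of_nonneg_right (neg_le_neg hc5a) hm0)
      have h8 : (2 : ℝ) ^ (-c4 * m) ≤ (2 : ℝ) ^ (-c5 * m) :=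
        Real.rpow_le_rpow_of_exponent_le h21 (mul_le_mul_of_nonneg_right (neg_le_neg hc5b) hm0)
      have h9 : 2 * (2 : ℝ) ^ (-c5 * m) ≤ (2 : ℝ) ^ (-(c5 / 2) * m) := by
        have h10 : 2 * (2 : ℝ) ^ (-c5 * m) = (2 : ℝ) ^ (1 + -c5 * m) := by
          rw [Real.rpow_add h20, Real.rpow_one]
        rw [h10]
        apply Real.rpow_le_rpow_of_exponent_le h21
        have h11 : 4 ≤ c7 * m := by
          rw [div_le_iff₀ hc70] at hml
          linarith
        have h12 : c7 * m ≤ c5 / 8 * m := mul_le_mul_of_nonneg_right hc7b hm0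
        linarith
      have h13 : (0 : ℝ) ≤ (r3 N).choose m := Nat.cast_nonneg _
      calc (2 : ℝ) ^ (-c2 * m) * (r3 N).choose m + (2 : ℝ) ^ (-c4 * m) * (r3 N).choose m ≤
          2 * (2 : ℝ) ^ (-c5 * m) * (r3 N).choose m := by
            rw [← add_mul]
            exact mul_le_mul_of_nonneg_right (by linarith only [h7, h8]) h13
        _ ≤ (2 : ℝ) ^ (-(c5 / 2) * m) * (r3 N).choose m :=
          mul_le_mul_of_nonneg_right h9 h13
    refine ⟨?_, ?_, ?_⟩
    · intro m hm
      refine ⟨?_, (h1 m hm).trans ?_⟩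
      · obtain ⟨A, hA, hf, hc⟩ := exists_r3 N
        rw [← hc, ← Finset.card_powersetCard]
        apply card_le_card
        intro B hB
        rw [mem_powersetCard] at hB
        refine mem_filter.2 ⟨mem_powerset.2 (hB.1.trans hA), ?_, hB.2⟩
        rintro a d hd ⟨g1, g2, g3⟩
        exact hf a d hd ⟨hB.1 g1, hB.1 g2, hB.1 g3⟩
      · apply mul_le_mul_of_nonneg_right _ (Nat.cast_nonneg _)
        apply Real.rpow_le_rpow_of_exponent_le h21
        have h5 : e * (m : ℝ) ≤ ε * m := mul_le_mul_of_nonneg_right heε (Nat.cast_nonneg _)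
        have h6 : (r3 N : ℝ) / D' ≤ r3 N / D :=
          div_le_div_of_nonneg_left (Nat.cast_nonneg _) (by linarith) (by linarith)
        linarith
    · intro m hm
      have hm' : r ≤ D' * m := by
        rw [hr]
        refine hm.trans ?_
        apply mul_le_mul_of_nonneg_right _ (Nat.cast_nonneg _)
        linarith
      refine le_trans ?_ ((hbad m hm').trans ?_)
      · norm_cast
        apply card_le_card
        intro A hA
        rw [mem_filter] at hA ⊢
        exact ⟨hA.1, hA.2.1, hA.2.2.1, fun hE => hA.2.2.2 (Even.mono' heε hE)⟩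
      · apply mul_le_mul_of_nonneg_right _ (Nat.cast_nonneg _)
        apply Real.rpow_le_rpow_of_exponent_le h21
        apply mul_le_mul_of_nonneg_right _ (Nat.cast_nonneg _)
        linarith
    · -- all sizes
      set S := (Icc 1 N).powerset.filter (fun A => APFree A ∧
          ¬ (|(A.card : ℝ) - r3 N / 2| ≤ ε * r3 N ∧ Even ε L N A)) with hS
      set S1 := (Icc 1 N).powerset.filter
            (fun A => APFree A ∧ ¬ |(A.card : ℝ) - r3 N / 2| ≤ e * r3 N) with hS1
      set S2 : ℕ → Finset (Finset ℕ) := fun m => (Icc 1 N).powerset.filter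
          (fun A => APFree A ∧ A.card = m ∧ ¬ Even e L N A) with hS2
      set M := (range (r3 N + 1)).filter (fun m : ℕ => r ≤ 4 * m) with hM
      have hsub : S ⊆ S1 ∪ M.biUnion S2 := by
        intro A hA
        rw [hS, mem_filter] at hA
        rw [mem_union]
        by_cases hcase : |(A.card : ℝ) - r3 N / 2| ≤ e * r3 N
        · right
          rw [mem_biUnion]
          have hA3 : ¬ Even e L N A := by
            intro h
            apply hA.2.2
            rw [← hr] at hcase ⊢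
            exact ⟨hcase.trans (mul_le_mul_of_nonneg_right heε hr0), Even.mono' heε h⟩
          refine ⟨A.card, ?_, ?_⟩
          · rw [hM, mem_filter, mem_range]
            refine ⟨?_, ?_⟩
            · have := card_le_r3 (mem_powerset.1 hA.1) hA.2.1
              omega
            · rw [← hr] at hcase
              have h5 := (abs_le.1 hcase).1
              have h6 : e * r ≤ 1 / 100 * r := mul_le_mul_of_nonneg_right he1 hr0
              linarith
          · rw [hS2]
            simp only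
            rw [mem_filter]
            exact ⟨hA.1, hA.2.1, rfl, hA3⟩
        · left
          rw [hS1, mem_filter]
          exact ⟨hA.1, hA.2.1, hcase⟩
      have h5 : (S.card : ℝ) ≤ S1.card + ∑ m ∈ M, ((S2 m).card : ℝ) := by
        have h6 := (card_le_card hsub).trans (card_union_le _ _)
        have h7 : (M.biUnion S2).card ≤ ∑ m ∈ M, (S2 m).card := card_biUnion_le
        have h8 : S.card ≤ S1.card + ∑ m ∈ M, (S2 m).card := by omega
        exact_mod_cast h8
      have h6 : ∑ m ∈ M, ((S2 m).card : ℝ) ≤ (2 : ℝ) ^ (-c7 * r) * (2 : ℝ) ^ r := by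
        calc ∑ m ∈ M, ((S2 m).card : ℝ) ≤
            ∑ m ∈ M, (2 : ℝ) ^ (-c7 * r) * ((r3 N).choose m : ℝ) := by
              apply sum_le_sum
              intro m hm
              rw [hM, mem_filter] at hm
              have hm0 : (0 : ℝ) ≤ m := Nat.cast_nonneg _
              have hm' : r ≤ D' * m := hm.2.trans (mul_le_mul_of_nonneg_right hD4 hm0)
              refine (hbad m hm').trans ?_
              apply mul_le_mul_of_nonneg_right _ (Nat.cast_nonneg _)
              apply Real.rpow_le_rpow_of_exponent_le h21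
              have h7 : c7 * r ≤ c5 / 8 * (4 * m) :=
                mul_le_mul hc7b hm.2 hr0 (by positivity)
              linarith
          _ ≤ ∑ m ∈ range (r3 N + 1), (2 : ℝ) ^ (-c7 * r) * ((r3 N).choose m : ℝ) := by
              apply sum_le_sum_of_subset_of_nonneg (filter_subset _ _)
              intro m _ _
              positivity
          _ = (2 : ℝ) ^ (-c7 * r) * (2 : ℝ) ^ r := by
              rw [← mul_sum]
              congr 1
              have := Nat.sum_range_choose (r3 N)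
              rw [hr, Real.rpow_natCast]
              exact_mod_cast this
      have h7 : (2 : ℝ) ^ r ≤ apCount N := by
        rw [hr, Real.rpow_natCast]
        exact_mod_cast two_pow_le_apCount N
      have h8 : (2 : ℝ) ^ ((1 - c3) * r) ≤ (2 : ℝ) ^ (-c7 * r) * (2 : ℝ) ^ r := by
        rw [← Real.rpow_add h20]
        apply Real.rpow_le_rpow_of_exponent_le h21
        have h9 : c7 * r ≤ c3 * r := mul_le_mul_of_nonneg_right hc7a hr0
        linarith only [h9]
      have h9 : 4 * (2 : ℝ) ^ (-c7 * r) ≤ (2 : ℝ) ^ (-(c7 / 2) * r) := by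
        have e1 : (4 : ℝ) = (2 : ℝ) ^ (2 : ℝ) := by norm_num
        rw [e1, ← Real.rpow_add h20]
        apply Real.rpow_le_rpow_of_exponent_le h21
        have h10 : 4 ≤ c7 * r := by
          rw [div_le_iff₀ hc70] at hrlarge
          linarith
        linarith
      rw [← hr] at h3 ⊢
      have hp0 : 0 < (2 : ℝ) ^ (-c7 * r) := Real.rpow_pos_of_pos h20 _
      have hp1 : 0 < (2 : ℝ) ^ r := Real.rpow_pos_of_pos h20 _
      calc (S.card : ℝ) ≤ 2 * ((2 : ℝ) ^ (-c7 * r) * (2 : ℝ) ^ r) +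
            (2 : ℝ) ^ (-c7 * r) * (2 : ℝ) ^ r := by linarith
        _ = 3 * (2 : ℝ) ^ (-c7 * r) * (2 : ℝ) ^ r := by ring
        _ ≤ (2 : ℝ) ^ (-(c7 / 2) * r) * (2 : ℝ) ^ r := by
              apply mul_le_mul_of_nonneg_right _ hp1.le
              linarith
        _ ≤ (2 : ℝ) ^ (-(c7 / 2) * r) * apCount N :=
              mul_le_mul_of_nonneg_left h7 (Real.rpow_pos_of_pos h20 _).le
  refine hb.trans ?_
  have haK : (2 : ℝ) ≤ (a : ℝ) + K + 2 := by
    have h1 : (0 : ℝ) ≤ a := Nat.cast_nonneg _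
    have h2 : (0 : ℝ) ≤ K := Nat.cast_nonneg _
    linarith
  have hLD : 1 ≤ L * D := one_le_mul_of_one_le_of_one_le hL hD
  have hlog2 : Real.log 2 ≤ Real.log (L * D * (a + K + 2)) :=
    Real.log_le_log (by norm_num) (haK.trans (le_mul_of_one_le_left (by linarith only [haK]) hLD))
  have hlogL : Real.log (L' * D' * (a + K + 2)) ≤
      (Real.log Q / Real.log 2 + 2) * Real.log (L * D * (a + K + 2)) := by
    have h1 : (L' : ℝ) * D' * (a + K + 2) ≤ Q * (L * D * (a + K + 2)) ^ 2 := by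
      have h2 : (L' : ℝ) * D' ≤ (256 / e ^ 2 + 1) * L ^ 2 * (8 * D) :=
        mul_le_mul hLb hDb hD0.le (by positivity)
      have h3 : (L' : ℝ) * D' * (a + K + 2) ≤
          (256 / e ^ 2 + 1) * L ^ 2 * (8 * D) * (a + K + 2) :=
        mul_le_mul_of_nonneg_right h2 (by linarith)
      have h4 : Q * (L * D * (a + K + 2)) ^ 2 =
          (256 / e ^ 2 + 1) * L ^ 2 * (8 * D) * (a + K + 2) * (D * (a + K + 2)) := by
        rw [hQ]
        ring
      rw [h4]
      refine h3.trans ?_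
      apply le_mul_of_one_le_right (by positivity)
      exact one_le_mul_of_one_le_of_one_le hD (by linarith only [haK])
    have h4 : Real.log (L' * D' * (a + K + 2)) ≤
        Real.log Q + 2 * Real.log (L * D * (a + K + 2)) := by
      have h5 := Real.log_le_log (by positivity) h1
      have h7 : Real.log (Q * (L * D * (a + K + 2)) ^ 2) =
          Real.log Q + 2 * Real.log (L * D * (a + K + 2)) := by
        rw [Real.log_mul (by positivity) (by positivity), Real.log_pow]
        push_cast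
        ring
      rw [h7] at h5
      exact h5
    have h6 : Real.log Q ≤ Real.log Q / Real.log 2 * Real.log (L * D * (a + K + 2)) := by
      rw [div_mul_eq_mul_div, le_div_iff₀ hl2]
      exact mul_le_mul_of_nonneg_left hlog2 (Real.log_nonneg hQ1)
    linarith
  have hlog0 : 0 ≤ Real.log (L' * D' * (a + K + 2)) := by
    apply Real.log_nonneg
    have h1 : 1 ≤ (L' : ℝ) * D' :=
      one_le_mul_of_one_le_of_one_le hL1' (by linarith only [hD4])
    exact one_le_mul_of_one_le_of_one_le h1 (by linarith only [haK])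
  apply mul_le_mul_of_nonneg_right _ (Real.sqrt_nonneg _)
  rw [mul_assoc (max C 0)]
  exact (mul_le_mul_of_nonneg_right (le_max_left _ _) hlog0).trans
    (mul_le_mul_of_nonneg_left hlogL (le_max_right _ _))

end Pool.Agent.MP_0f71ae_nt.Sp
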