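import Pool.Agent.MP_0f71ae_nt.Cnt.Lin2
import Pool.Agent.MP_0f71ae_nt.Cnt.Scales
import Pool.Agent.MP_0f71ae_nt.Sz.WR
import Pool.Agent.MP_0f71ae_nt.Sp.Def

/-!
# The weighted count at a linear scale, with errors proportional to `log (1 + w)`
-/

set_option autoImplicit false

namespace Pool.Agent.MP_0f71ae_nt.Sp

open Finset Pool.Agent.MP_0f71ae_nt.Reg Pool.Agent.MP_0f71ae_nt.Cnt Pool.Agent.MP_0f71ae_nt.Sz

theorem Z_of_lin2 {ε : ℝ} (hε : 0 < ε) (hε1 : ε ≤ 1) (k T D N : ℕ) (hD : 1 ≤ D)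
    (hkT : k + 1 ≤ T) (hTε : 100 / ε ≤ T) (hN1 : 2 ^ k ≤ N) (hN2 : N < 2 ^ (k + 1))
    (hlin : LinAt (ε / 40) (((D : ℝ) * T) ^ 12) N)
    (hNΛ : ((D : ℝ) * T) ^ 12 * (2 / (ε / 40)) ≤ N)
    (hkε : 8 / ε ≤ k) (W : ℝ) (hW : 1 ≤ W) (w : ℝ) (hw : 0 ≤ w) (hwW : w ≤ W) :
    Z w (Icc 1 N) ≤
      Real.exp (((1 + ε) * Real.log (1 + w) + Real.log (2 * W) / D) * r3 N) := by
  set y : ℝ := (D : ℝ) * T with hy
  set Λ : ℝ := y ^ 12 with hΛ
  have hD1 : (1 : ℝ) ≤ D := by exact_mod_cast hD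
  have hD0 : (0 : ℝ) < D := by linarith
  have hT100 : (100 : ℝ) ≤ T := by
    have : 100 ≤ 100 / ε := by rw [le_div_iff₀ hε]; linarith
    linarith
  have hT0 : (0 : ℝ) < T := by linarith
  have hT2 : 2 ≤ T := by
    have : (2 : ℝ) ≤ T := by linarith
    exact_mod_cast this
  have hTy : (T : ℝ) ≤ y := by
    rw [hy]
    exact le_mul_of_one_le_left hT0.le hD1
  have hy100 : 100 ≤ y := hT100.trans hTy
  have hy1 : 1 ≤ y := by linarith
  have hy0 : 0 < y := by linarith
  have hΛ1 : 1 ≤ Λ := one_le_pow₀ hy1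
  have hyΛ : y ≤ Λ := le_self_pow₀ hy1 (by norm_num)
  have hN0 : 1 ≤ N := le_trans Nat.one_le_two_pow hN1
  have hN0' : (1 : ℝ) ≤ N := by exact_mod_cast hN0
  have hlogΛ : Real.log Λ = 12 * Real.log y := by rw [hΛ, Real.log_pow]; norm_num
  have hly0 : 0 ≤ Real.log y := Real.log_nonneg hy1
  have hlyy : Real.log y ≤ y := by
    have := Real.log_le_sub_one_of_pos hy0
    linarith
  have hlogN0 : 0 ≤ Real.log N := Real.log_nonneg hN0'
  have hlogN : Real.log N ≤ T := by
    have h1 : (N : ℝ) ≤ 2 ^ (k + 1) := by exact_mod_cast hN2.le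
    have h2 : Real.log N ≤ Real.log ((2 : ℝ) ^ (k + 1)) := Real.log_le_log (by linarith) h1
    rw [Real.log_pow] at h2
    have h3 : ((k + 1 : ℕ) : ℝ) ≤ T := by exact_mod_cast hkT
    have := Real.log_two_lt_d9
    have h0 : (0 : ℝ) ≤ ((k + 1 : ℕ) : ℝ) := by positivity
    nlinarith
  -- supersaturation just above `r₃`
  have hsup : ∀ A ⊆ Icc 1 N, (1 + ε / 4) * r3 N ≤ A.card → y ^ 7 * r3 N ≤ (aps A).card := by
    intro A hA hAc
    have h1 := sat_one (ε := ε / 4) (η := ε / 40) (Λ := Λ) (by positivity) (by positivity)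
      (by linarith) (by linarith) hΛ1 N hN0 hNΛ
      (hlin (1 / Λ) le_rfl (by rw [div_le_iff₀ (by linarith)]; nlinarith)) A hA hAc
    have h0 : (0 : ℝ) ≤ (aps A).card := by positivity
    have hr0 : (0 : ℝ) ≤ r3 N := by positivity
    have h2 : (1 + Real.log Λ) * (1 + Real.log N) ≤ 26 * y ^ 2 := by
      have e1 : 1 + Real.log Λ ≤ 13 * y := by rw [hlogΛ]; linarith
      have e2 : 1 + Real.log N ≤ 2 * y := by linarith
      calc (1 + Real.log Λ) * (1 + Real.log N) ≤ (13 * y) * (2 * y) :=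
            mul_le_mul e1 e2 (by linarith) (by positivity)
        _ = 26 * y ^ 2 := by ring
    have h3 : ε / 40 * (ε / 4) / 32 * Λ * r3 N ≤ 26 * y ^ 2 * (aps A).card :=
      h1.trans (mul_le_mul_of_nonneg_right h2 h0)
    have hεy : 100 ≤ ε * y := by
      rw [div_le_iff₀ hε] at hTε
      have : (T : ℝ) * ε ≤ y * ε := mul_le_mul_of_nonneg_right hTy hε.le
      linarith
    have h4 : 133120 * (y ^ 9 * r3 N) ≤ 133120 * (y ^ 2 * (aps A).card) := by
      calc 133120 * (y ^ 9 * r3 N) ≤ (1000000 : ℝ) * (y ^ 9 * r3 N) := by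
            apply mul_le_mul_of_nonneg_right (by norm_num) (by positivity)
        _ = (100 * 100) * (100 * (y ^ 9 * r3 N)) := by ring
        _ ≤ ((ε * y) * (ε * y)) * (y * (y ^ 9 * r3 N)) := by
            apply mul_le_mul
            · exact mul_le_mul hεy hεy (by norm_num) (by positivity)
            · exact mul_le_mul_of_nonneg_right hy100 (by positivity)
            · positivity
            · positivity
        _ = 5120 * (ε / 40 * (ε / 4) / 32 * Λ * r3 N) := by rw [hΛ]; ring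
        _ ≤ 5120 * (26 * y ^ 2 * (aps A).card) := mul_le_mul_of_nonneg_left h3 (by norm_num)
        _ = 133120 * (y ^ 2 * (aps A).card) := by ring
    have h5 : y ^ 2 * (y ^ 7 * r3 N) ≤ y ^ 2 * (aps A).card := by
      have e : y ^ 2 * (y ^ 7 * r3 N) = y ^ 9 * r3 N := by ring
      rw [e]
      linarith
    exact le_of_mul_le_mul_left h5 (by positivity)
  -- counting
  set δ : ℝ := ε / 4 with hδ
  have hδ0 : 0 < δ := by positivity
  have hδ1 : δ ≤ 1 / 4 := by rw [hδ]; linarith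
  have hr : (2 / δ : ℝ) ≤ r3 N := by
    have h1 : k + 1 ≤ r3 N := (r3_ge_log k).trans (r3_mono hN1)
    have h2 : ((k + 1 : ℕ) : ℝ) ≤ r3 N := by exact_mod_cast h1
    have h3 : 2 / δ = 8 / ε := by rw [hδ]; field_simp; norm_num
    rw [h3]
    push_cast at h2
    linarith
  have hrδ : 2 ≤ δ * r3 N := by
    rw [div_le_iff₀ hδ0] at hr
    linarith
  have hr8 : (8 : ℝ) ≤ r3 N := by nlinarith
  set s0 : ℕ := ⌈(1 + δ) * r3 N⌉₊ with hs0
  have hs0le : (s0 : ℝ) ≤ (1 + δ) * r3 N + 1 := (Nat.ceil_lt_add_one (by positivity)).le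
  have hs0ge : (1 + δ) * r3 N ≤ s0 := Nat.le_ceil _
  have hs01 : 1 ≤ s0 := by
    have : (1 : ℝ) ≤ s0 := by nlinarith
    exact_mod_cast this
  have hs03 : (s0 : ℝ) ≤ 3 * r3 N := by nlinarith
  have hsat : ∀ A ⊆ Icc 1 N, A.card = s0 →
      4 * ((D * T) ^ 3) * ((D * T) ^ 3 + 1) * s0 ≤ (aps A).card := by
    intro A hA hc'
    have h1 := hsup A hA (by rw [hc']; exact hs0ge)
    have h6 : (((4 * ((D * T) ^ 3) * ((D * T) ^ 3 + 1) * s0 : ℕ) : ℝ)) ≤ (aps A).card := by
      push_cast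
      rw [← hy]
      have e1 : y ^ 3 + 1 ≤ 2 * y ^ 3 := by
        have : (1 : ℝ) ≤ y ^ 3 := one_le_pow₀ hy1
        linarith
      have e2 : 4 * y ^ 3 * (y ^ 3 + 1) * s0 ≤ 24 * y ^ 6 * r3 N := by
        calc 4 * y ^ 3 * (y ^ 3 + 1) * s0
            ≤ 4 * y ^ 3 * (2 * y ^ 3) * (3 * r3 N) :=
              mul_le_mul (mul_le_mul_of_nonneg_left e1 (by positivity)) hs03
                (by positivity) (by positivity)
          _ = 24 * y ^ 6 * r3 N := by ring
      have e3 : 24 * y ^ 6 * r3 N ≤ y ^ 7 * r3 N := by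
        apply mul_le_mul_of_nonneg_right _ (by positivity)
        calc 24 * y ^ 6 ≤ y * y ^ 6 := by
              apply mul_le_mul_of_nonneg_right (by linarith) (by positivity)
          _ = y ^ 7 := by ring
      linarith
    exact_mod_cast h6
  have hDT : T ≤ D * T := Nat.le_mul_of_pos_left _ (by omega)
  have hcount := Z_le N s0 ((D * T) ^ 3) _ w W hw hW hwW (by
    calc 2 ≤ T := hT2
      _ ≤ D * T := hDT
      _ ≤ (D * T) ^ 3 := Nat.le_self_pow (by norm_num) _) hs01 le_rfl hsat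
  have hlog2 : Nat.log 2 N = k := by
    apply Nat.log_eq_of_pow_le_of_lt_pow hN1 hN2
  rw [hlog2] at hcount
  set t : ℕ := 4 * s0 / (D * T) ^ 3 with ht
  set r : ℝ := (r3 N : ℝ) with hrdef
  have hr0 : 0 ≤ r := by linarith
  have hW0 : 0 < W := by linarith
  have hl2 : 0 < Real.log 2 := Real.log_pos (by norm_num)
  have hlW : 0 ≤ Real.log W := Real.log_nonneg hW
  have hl2W : Real.log (2 * W) = Real.log 2 + Real.log W :=
    Real.log_mul (by norm_num) hW0.ne'
  have hl1W : Real.log (1 + W) ≤ Real.log (2 * W) := Real.log_le_log (by linarith) (by linarith)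
  have hl1W0 : 0 ≤ Real.log (1 + W) := Real.log_nonneg (by linarith)
  -- the exponent of the first factor
  have ht1 : (T : ℝ) * (T * t) ≤ r / D := by
    have h4 : (D : ℝ) * T * (T * (T * t)) ≤ 4 * s0 := by
      have : (D * T) ^ 3 * t ≤ 4 * s0 := Nat.mul_div_le _ _
      have h5 : ((D : ℝ) * T) ^ 3 * t ≤ 4 * s0 := by exact_mod_cast this
      have h6 : (D : ℝ) * T * (T * (T * t)) ≤ ((D : ℝ) * T) ^ 3 * t := by
        have e1 : ((D : ℝ) * T) ^ 3 * t = (D * T * (T * (T * t))) * (D * D) := by ring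
        rw [e1]
        apply le_mul_of_one_le_right (by positivity)
        exact one_le_mul_of_one_le_of_one_le hD1 hD1
      linarith
    rw [le_div_iff₀ hD0]
    have h7 : (T : ℝ) * ((T : ℝ) * (T * t) * D) ≤ T * r := by
      calc (T : ℝ) * ((T : ℝ) * (T * t) * D) = (D : ℝ) * T * (T * (T * t)) := by ring
        _ ≤ 4 * s0 := h4
        _ ≤ 12 * r := by linarith
        _ ≤ T * r := mul_le_mul_of_nonneg_right (by linarith) hr0
    exact le_of_mul_le_mul_left h7 hT0
  have hlogW1 : Real.log (W * (N + 1)) ≤ T * Real.log (2 * W) := by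
    have h1 : (N : ℝ) + 1 ≤ 2 ^ (k + 1) := by exact_mod_cast hN2
    have h2 : Real.log ((N : ℝ) + 1) ≤ (k + 1) * Real.log 2 := by
      have := Real.log_le_log (by positivity) h1
      rw [Real.log_pow] at this
      push_cast at this
      exact this
    rw [Real.log_mul hW0.ne' (by positivity), hl2W]
    have h3 : ((k : ℝ) + 1) ≤ T := by exact_mod_cast hkT
    have h4 : ((k : ℝ) + 1) * Real.log 2 ≤ T * Real.log 2 := mul_le_mul_of_nonneg_right h3 hl2.le
    have h5 : Real.log W ≤ T * Real.log W := by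
      have : (1 : ℝ) ≤ T := by linarith
      nlinarith
    linarith
  have hf1 : (W * ((N : ℝ) + 1)) ^ ((k + 1) * t) ≤ Real.exp (r / D * Real.log (2 * W)) := by
    have hpos : 0 < W * ((N : ℝ) + 1) := by positivity
    rw [← Real.exp_log hpos, ← Real.exp_nat_mul]
    apply Real.exp_le_exp.2
    have h0 : 0 ≤ Real.log (2 * W) := by rw [hl2W]; positivity
    have h3 : ((k : ℝ) + 1) ≤ T := by exact_mod_cast hkT
    have ht0 : (0 : ℝ) ≤ t := Nat.cast_nonneg _
    push_cast
    calc ((k : ℝ) + 1) * t * Real.log (W * (N + 1))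
        ≤ ((k : ℝ) + 1) * t * (T * Real.log (2 * W)) :=
          mul_le_mul_of_nonneg_left hlogW1 (by positivity)
      _ ≤ (T : ℝ) * t * (T * Real.log (2 * W)) := by
          apply mul_le_mul_of_nonneg_right _ (by positivity)
          exact mul_le_mul_of_nonneg_right h3 ht0
      _ = (T * (T * t)) * Real.log (2 * W) := by ring
      _ ≤ r / D * Real.log (2 * W) := mul_le_mul_of_nonneg_right ht1 h0
  have hrs : r3 N ≤ s0 := by
    have h1 : (r3 N : ℝ) ≤ s0 := by
      have : (1 + δ) * r = r + δ * r := by ring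
      have h0 : 0 ≤ δ * r := by positivity
      linarith
    exact_mod_cast h1
  have hl1w : 0 ≤ Real.log (1 + w) := Real.log_nonneg (by linarith)
  have hf2 : (1 + w) ^ s0 ≤ Real.exp ((1 + ε) * Real.log (1 + w) * r) := by
    rw [← Real.exp_log (show (0 : ℝ) < 1 + w by linarith), ← Real.exp_nat_mul]
    rw [Real.exp_log (show (0 : ℝ) < 1 + w by linarith)]
    apply Real.exp_le_exp.2
    have h1 : (s0 : ℝ) ≤ (1 + ε) * r := by
      have e1 : (1 + ε) * r = r + 4 * (δ * r) := by rw [hδ]; ring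
      have e2 : (1 + δ) * r = r + δ * r := by ring
      rw [e1]
      linarith
    calc (s0 : ℝ) * Real.log (1 + w) ≤ (1 + ε) * r * Real.log (1 + w) :=
          mul_le_mul_of_nonneg_right h1 hl1w
      _ = (1 + ε) * Real.log (1 + w) * r := by ring
  calc Z w (Icc 1 N) ≤ (W * ((N : ℝ) + 1)) ^ ((k + 1) * t) * (1 + w) ^ s0 := hcount
    _ ≤ Real.exp (r / D * Real.log (2 * W)) * Real.exp ((1 + ε) * Real.log (1 + w) * r) :=
        mul_le_mul hf1 hf2 (by positivity) (by positivity)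
    _ = Real.exp (((1 + ε) * Real.log (1 + w) + Real.log (2 * W) / D) * r) := by
        rw [← Real.exp_add]
        congr 1
        ring

end Pool.Agent.MP_0f71ae_nt.Sp
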