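import Pool.Agent.MP_0f71ae_nt.Sp.Def
import Pool.Agent.MP_0f71ae_nt.Sz.LT

/-!
# [Sp-ZB2] monotonicity of `Blk`; bounds for all blocks
-/

set_option autoImplicit false

namespace Pool.Agent.MP_0f71ae_nt.Sp

open Finset Pool.Agent.MP_0f71ae_nt.Reg Pool.Agent.MP_0f71ae_nt.Cnt Pool.Agent.MP_0f71ae_nt.Sz

theorem Blk.mono {η η' ρ ρ' τ τ' W W' : ℝ} {N : ℕ} (h : Blk η ρ τ W N) (hη0 : 0 ≤ η)
    (hη : η ≤ η') (hρ0 : 0 ≤ ρ) (hρ : ρ ≤ ρ') (hτ0 : 0 ≤ τ) (hτ : τ ≤ τ') (hW : W' ≤ W) :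
    Blk η' ρ' τ' W' N := by
  have hr : (0 : ℝ) ≤ r3 N := Nat.cast_nonneg _
  have key : ∀ ℓ : ℕ, (1 + η) * ((ℓ : ℝ) / N + ρ) ≤ (1 + η') * ((ℓ : ℝ) / N + ρ') := by
    intro ℓ
    have h0 : (0 : ℝ) ≤ (ℓ : ℝ) / N := by positivity
    exact mul_le_mul (by linarith) (by linarith) (by linarith) (by linarith)
  have key0 : ∀ ℓ : ℕ, 0 ≤ (1 + η) * ((ℓ : ℝ) / N + ρ) := by
    intro ℓ
    have h0 : (0 : ℝ) ≤ (ℓ : ℝ) / N := by positivity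
    exact mul_nonneg (by linarith) (by linarith)
  constructor
  · intro ℓ hℓ
    exact (h.1 ℓ hℓ).trans (mul_le_mul_of_nonneg_right (key ℓ) hr)
  · intro ℓ hℓ w hw hwW
    refine (h.2 ℓ hℓ w hw (hwW.trans hW)).trans (Real.exp_le_exp.2 ?_)
    have hlog : 0 ≤ Real.log (1 + w) := Real.log_nonneg (by linarith)
    apply mul_le_mul_of_nonneg_right _ hr
    exact mul_le_mul (key ℓ) (by linarith) (by linarith) ((key0 ℓ).trans (key ℓ))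

/-- block bound from linearity and from the bound at all lengths in `[N/Λ, N]` -/
theorem blk_of {η Λ W τ : ℝ} (hη : 0 < η) (hη1 : η ≤ 1) (hΛ : 1 ≤ Λ) (hτ : 0 ≤ τ) {N : ℕ}
    (hΛN : Λ ≤ N) (hlin : LinAt (η / 4) Λ N)
    (hZ : ∀ N' : ℕ, (N : ℝ) ≤ Λ * N' → N' ≤ N → ∀ w : ℝ, 0 ≤ w → w ≤ W →
      Z w (Icc 1 N') ≤ Real.exp (((1 + η / 4) * Real.log (1 + w) + τ) * r3 N')) :
    Blk η (2 / Λ) τ W N := by
  have hΛ0 : 0 < Λ := by linarith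
  have hNR : (0 : ℝ) < N := by linarith
  have hr : (0 : ℝ) ≤ r3 N := Nat.cast_nonneg _
  -- the auxiliary length
  have aux : ∀ ℓ : ℕ, ℓ ≤ N → ∃ N' : ℕ, ℓ ≤ N' ∧ N' ≤ N ∧ (N : ℝ) ≤ Λ * N' ∧
      (r3 N' : ℝ) ≤ (1 + η / 4) * ((ℓ : ℝ) / N + 2 / Λ) * r3 N := by
    intro ℓ hℓ
    have hc1 : (⌈(N : ℝ) / Λ⌉₊ : ℝ) < N / Λ + 1 := Nat.ceil_lt_add_one (by positivity)
    have hc2 : (N : ℝ) / Λ ≤ ⌈(N : ℝ) / Λ⌉₊ := Nat.le_ceil _
    have hc3 : ⌈(N : ℝ) / Λ⌉₊ ≤ N := by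
      rw [Nat.ceil_le, div_le_iff₀ hΛ0]
      nlinarith
    obtain ⟨N', hN'⟩ : ∃ N', N' = max ℓ ⌈(N : ℝ) / Λ⌉₊ := ⟨_, rfl⟩
    have a1 : ℓ ≤ N' := by rw [hN']; exact le_max_left _ _
    have a2 : N' ≤ N := by rw [hN']; exact max_le hℓ hc3
    have a3 : (N : ℝ) / Λ ≤ N' := by
      refine hc2.trans ?_
      rw [hN']
      exact_mod_cast le_max_right _ _
    have a4 : (N : ℝ) ≤ Λ * N' := by
      rw [div_le_iff₀ hΛ0] at a3
      linarith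
    obtain ⟨y, hy⟩ : ∃ y : ℝ, y = (N' : ℝ) / N := ⟨_, rfl⟩
    have hyN : y * N = N' := by rw [hy, div_mul_cancel₀ _ hNR.ne']
    have hy1 : y ≤ 1 := by rw [hy, div_le_one hNR]; exact_mod_cast a2
    have hy0 : 1 / Λ ≤ y := by
      rw [hy, div_le_div_iff₀ hΛ0 hNR]
      linarith
    have hypos : 0 < y := lt_of_lt_of_le (by positivity) hy0
    have k1 := hlin y hy0 (hy1.trans hΛ)
    rw [hyN, Nat.floor_natCast] at k1
    have k2 := (abs_le.1 k1).2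
    have hyb : y ≤ (ℓ : ℝ) / N + 2 / Λ := by
      have b1 : (N' : ℝ) ≤ ℓ + (N / Λ + 1) := by
        rcases le_total ℓ ⌈(N : ℝ) / Λ⌉₊ with hl | hl
        · rw [hN', max_eq_right hl]
          have : (0 : ℝ) ≤ ℓ := Nat.cast_nonneg _
          linarith
        · rw [hN', max_eq_left hl]
          have : (0 : ℝ) ≤ (N : ℝ) / Λ := by positivity
          linarith
      have b2 : 1 ≤ (N : ℝ) / Λ := by rw [le_div_iff₀ hΛ0]; linarith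
      have b3 : (N' : ℝ) ≤ ℓ + 2 * (N / Λ) := by linarith
      rw [hy, div_le_iff₀ hNR, add_mul, div_mul_cancel₀ _ hNR.ne']
      calc (N' : ℝ) ≤ ℓ + 2 * (N / Λ) := b3
        _ = ℓ + 2 / Λ * N := by ring
    refine ⟨N', a1, a2, a4, ?_⟩
    calc (r3 N' : ℝ) ≤ (1 + η / 4) * (y * r3 N) := by linarith
      _ = (1 + η / 4) * y * r3 N := by ring
      _ ≤ (1 + η / 4) * ((ℓ : ℝ) / N + 2 / Λ) * r3 N :=
        mul_le_mul_of_nonneg_right (mul_le_mul_of_nonneg_left hyb (by linarith)) hr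
  have hbr : ∀ ℓ : ℕ, 0 ≤ ((ℓ : ℝ) / N + 2 / Λ) * r3 N := by
    intro ℓ
    positivity
  constructor
  · intro ℓ hℓ
    obtain ⟨N', a1, a2, a4, a5⟩ := aux ℓ hℓ
    have b0 : (r3 ℓ : ℝ) ≤ r3 N' := by exact_mod_cast r3_mono a1
    have b1 := hbr ℓ
    calc (r3 ℓ : ℝ) ≤ (1 + η / 4) * ((ℓ : ℝ) / N + 2 / Λ) * r3 N := b0.trans a5
      _ = (1 + η / 4) * (((ℓ : ℝ) / N + 2 / Λ) * r3 N) := by ring
      _ ≤ (1 + η) * (((ℓ : ℝ) / N + 2 / Λ) * r3 N) :=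
        mul_le_mul_of_nonneg_right (by linarith) b1
      _ = (1 + η) * ((ℓ : ℝ) / N + 2 / Λ) * r3 N := by ring
  · intro ℓ hℓ w hw hwW
    obtain ⟨N', a1, a2, a4, a5⟩ := aux ℓ hℓ
    have hw1 : 0 < 1 + w := by linarith
    have hlog : 0 ≤ Real.log (1 + w) := Real.log_nonneg (by linarith)
    have b1 : Z w (Icc 1 ℓ) ≤ Z w (Icc 1 N') := zb_mono hw (Finset.Icc_subset_Icc_right a1)
    refine (b1.trans (hZ N' a4 a2 w hw hwW)).trans (Real.exp_le_exp.2 ?_)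
    have c0 : 0 ≤ (1 + η / 4) * Real.log (1 + w) + τ := by
      have : 0 ≤ (1 + η / 4) * Real.log (1 + w) := mul_nonneg (by linarith) hlog
      linarith
    have c1 : ((1 + η / 4) * Real.log (1 + w) + τ) * (1 + η / 4) ≤
        (1 + η) * (Real.log (1 + w) + τ) := by
      have e1 : (1 + η / 4) * (1 + η / 4) ≤ 1 + η := by nlinarith
      have e2 : (1 + η / 4) * (1 + η / 4) * Real.log (1 + w) ≤ (1 + η) * Real.log (1 + w) :=
        mul_le_mul_of_nonneg_right e1 hlog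
      have e3 : τ * (1 + η / 4) ≤ τ * (1 + η) := mul_le_mul_of_nonneg_left (by linarith) hτ
      calc ((1 + η / 4) * Real.log (1 + w) + τ) * (1 + η / 4)
          = (1 + η / 4) * (1 + η / 4) * Real.log (1 + w) + τ * (1 + η / 4) := by ring
        _ ≤ (1 + η) * Real.log (1 + w) + τ * (1 + η) := add_le_add e2 e3
        _ = (1 + η) * (Real.log (1 + w) + τ) := by ring
    calc ((1 + η / 4) * Real.log (1 + w) + τ) * (r3 N' : ℝ)
        ≤ ((1 + η / 4) * Real.log (1 + w) + τ) * ((1 + η / 4) * ((ℓ : ℝ) / N + 2 / Λ) * r3 N) :=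
          mul_le_mul_of_nonneg_left a5 c0
      _ = (((1 + η / 4) * Real.log (1 + w) + τ) * (1 + η / 4)) *
          (((ℓ : ℝ) / N + 2 / Λ) * r3 N) := by ring
      _ ≤ ((1 + η) * (Real.log (1 + w) + τ)) * (((ℓ : ℝ) / N + 2 / Λ) * r3 N) :=
          mul_le_mul_of_nonneg_right c1 (hbr ℓ)
      _ = (1 + η) * ((ℓ : ℝ) / N + 2 / Λ) * (Real.log (1 + w) + τ) * r3 N := by ring

end Pool.Agent.MP_0f71ae_nt.Sp
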